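import Pool.Agent.T2H11.KS.Split

set_option autoImplicit false

/-!
# Closure under uniform splits, and the number of edges
-/

open Finset

namespace Pool.Agent.T2H11.KS

variable {V : Type} [DecidableEq V]

variable {G : Finset (Finset V)}

lemma UniformSplit.restrict {C A B : Finset V} (h : UniformSplit G C A B) (W : Finset V) :
    UniformSplit G (W ∩ C) (W ∩ A) (W ∩ B) := by
  obtain ⟨h1, h2, h3, h4⟩ := h
  refine ⟨h1.mono inter_subset_right inter_subset_right,
    h2.mono inter_subset_right inter_subset_right,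
    h3.mono inter_subset_right inter_subset_right, ?_⟩
  intro e f he hf heS hfS hC hnC c1 c2 c3 heG
  have key : ∀ e : Finset V, e ⊆ W ∩ C ∪ W ∩ A ∪ W ∩ B → e ⊆ C ∪ A ∪ B ∧
      ∀ D, e ∩ (W ∩ D) = e ∩ D := by
    intro e he
    constructor
    · intro x hx
      have := he hx
      simp only [mem_union, mem_inter] at this ⊢
      tauto
    · intro D
      ext x
      simp only [mem_inter]
      constructor
      · rintro ⟨a, -, b⟩
        exact ⟨a, b⟩
      · rintro ⟨a, b⟩
        have := he a
        simp only [mem_union, mem_inter] at this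
        tauto
  obtain ⟨k1, k2⟩ := key e heS
  obtain ⟨k3, k4⟩ := key f hfS
  rw [k2] at hC c1 c2 c3
  rw [k4] at c1 c2 c3
  refine h4 e f he hf k1 k3 hC ?_ c1 c2 c3 heG
  intro heC
  apply hnC
  intro x hx
  have := heS hx
  simp only [mem_union, mem_inter] at this ⊢
  exact ⟨by tauto, heC hx⟩

/-- **Closure.** The bound `K |W|³` for all subsets is preserved by uniform splits. -/
theorem closure (h3 : ThreeGraph G) (h4 : TetrahedronFree G) {K : ℝ} (hK : 5 / 9 ≤ K)
    {base : Finset V → Prop} (hb : ∀ W, base W → ∀ W' ⊆ W, Bd G K W') {W : Finset V}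
    (hW : Reducible G base W) : ∀ W' ⊆ W, Bd G K W' := by
  induction hW with
  | base h => exact hb _ h
  | @split C A B hs _ _ ihC ihU =>
    intro W' hW'
    have e : W' = (W' ∩ C) ∪ ((W' ∩ A) ∪ (W' ∩ B)) := by
      rw [← inter_union_distrib_left, ← inter_union_distrib_left, inter_eq_left.2 hW']
    rw [e]
    refine bd_split h3 h4 hK (hs.restrict W') (ihC _ inter_subset_right) ?_ ?_ ?_
    · apply ihU
      exact union_subset_union inter_subset_right inter_subset_right
    · exact ihU _ (inter_subset_right.trans subset_union_left)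
    · exact ihU _ (inter_subset_right.trans subset_union_right)

/-- the six orders of a triple -/
lemma card_orders {e W : Finset V} (he : e.card = 3) (hW : e ⊆ W) :
    ((W ×ˢ W ×ˢ W).filter (fun p => ({p.1, p.2.1, p.2.2} : Finset V) = e)).card = 6 := by
  obtain ⟨a, b, c, hab, hac, hbc, rfl⟩ := card_eq_three.1 he
  have ha : a ∈ W := hW (by simp)
  have hb : b ∈ W := hW (by simp)
  have hc : c ∈ W := hW (by simp)
  have h1 : (W ×ˢ W ×ˢ W).filter (fun p => ({p.1, p.2.1, p.2.2} : Finset V) = {a, b, c}) =
      {(a, b, c), (a, c, b), (b, a, c), (b, c, a), (c, a, b), (c, b, a)} := by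
    ext ⟨x, y, z⟩
    simp only [mem_filter, mem_product, mem_insert, mem_singleton, Prod.mk.injEq]
    constructor
    · rintro ⟨-, h⟩
      have hcard : ({x, y, z} : Finset V).card = 3 := by rw [h]; exact he
      have hx : x ∈ ({a, b, c} : Finset V) := by rw [← h]; simp
      have hy : y ∈ ({a, b, c} : Finset V) := by rw [← h]; simp
      have hz : z ∈ ({a, b, c} : Finset V) := by rw [← h]; simp
      have hxy : x ≠ y := by
        rintro rfl
        have h9 : ({x, x, z} : Finset V) = {x, z} := by ext u; simp
        rw [h9] at hcard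
        have := card_le_two (a := x) (b := z)
        omega
      have hxz : x ≠ z := by
        rintro rfl
        have h9 : ({x, y, x} : Finset V) = {x, y} := by ext u; simp; tauto
        rw [h9] at hcard
        have := card_le_two (a := x) (b := y)
        omega
      have hyz : y ≠ z := by
        rintro rfl
        have h9 : ({x, y, y} : Finset V) = {x, y} := by ext u; simp
        rw [h9] at hcard
        have := card_le_two (a := x) (b := y)
        omega
      simp only [mem_insert, mem_singleton] at hx hy hz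
      rcases hx with rfl | rfl | rfl <;> rcases hy with rfl | rfl | rfl <;>
        rcases hz with rfl | rfl | rfl <;> simp_all
    · rintro (⟨rfl, rfl, rfl⟩ | ⟨rfl, rfl, rfl⟩ | ⟨rfl, rfl, rfl⟩ | ⟨rfl, rfl, rfl⟩ |
        ⟨rfl, rfl, rfl⟩ | ⟨rfl, rfl, rfl⟩) <;> refine ⟨⟨by assumption, by assumption, by assumption⟩, ?_⟩ <;>
        ext u <;> simp only [mem_insert, mem_singleton] <;> tauto
  rw [h1]
  rw [card_insert_of_notMem, card_insert_of_notMem, card_insert_of_notMem, card_insert_of_notMem,
    card_insert_of_notMem, card_singleton]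
  all_goals simp only [mem_insert, mem_singleton, Prod.mk.injEq]; tauto

/-- ordered triples and edges -/
theorem N_eq (h3 : ThreeGraph G) (W : Finset V) :
    N G W W W = 6 * ((G.filter (· ⊆ W)).card : ℝ) := by
  have h1 : N G W W W = (((W ×ˢ W ×ˢ W).filter
      (fun p => ({p.1, p.2.1, p.2.2} : Finset V) ∈ G)).card : ℝ) := by
    rw [card_filter]
    push_cast
    rw [sum_product, N]
    refine sum_congr rfl fun x _ => ?_
    rw [sum_product]
    rfl
  rw [h1]
  have h2 : ((W ×ˢ W ×ˢ W).filter (fun p => ({p.1, p.2.1, p.2.2} : Finset V) ∈ G)).card =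
      ∑ e ∈ G.filter (· ⊆ W), 6 := by
    rw [card_eq_sum_card_fiberwise (f := fun p => ({p.1, p.2.1, p.2.2} : Finset V))
      (t := G.filter (· ⊆ W))]
    · refine sum_congr rfl fun e he => ?_
      rw [mem_filter] at he
      rw [← card_orders (h3 e he.1) he.2]
      congr 1
      ext p
      simp only [mem_filter]
      constructor
      · rintro ⟨⟨h5, -⟩, h6⟩
        exact ⟨h5, h6⟩
      · rintro ⟨h5, h6⟩
        exact ⟨⟨h5, by rw [h6]; exact he.1⟩, h6⟩
    · intro p hp
      simp only [coe_filter, mem_product, Set.mem_setOf_eq] at hp ⊢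
      refine ⟨hp.2, ?_⟩
      intro u hu
      simp only [mem_insert, mem_singleton] at hu
      rcases hu with rfl | rfl | rfl
      · exact hp.1.1
      · exact hp.1.2.1
      · exact hp.1.2.2
  rw [h2, sum_const, smul_eq_mul]
  push_cast
  ring

theorem bd_iff (h3 : ThreeGraph G) {K : ℝ} {W : Finset V} :
    Bd G K W ↔ (edgesIn G W : ℝ) ≤ K / 6 * (W.card : ℝ) ^ 3 := by
  rw [Bd, N_eq h3, edgesIn]
  constructor <;> intro h <;> linarith

lemma bd_small (h3 : ThreeGraph G) {K : ℝ} (hK : 0 ≤ K) {W : Finset V} (hW : W.card ≤ 1) :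
    Bd G K W := by
  rw [Bd, N_eq_zero]
  · positivity
  · intro x hx y hy z hz hh
    have h1 := (distinct_of_mem h3 hh).1
    exact h1 (card_le_one.1 hW x hx y hy)

/-- the bound for the class generated by single vertices -/
theorem reducible_bound [Fintype V] (h3 : ThreeGraph G) (h4 : TetrahedronFree G)
    (h : Reducible G (fun W => W.card ≤ 1) univ) :
    (G.card : ℝ) ≤ 5 / 54 * (Fintype.card V : ℝ) ^ 3 := by
  have h1 := closure h3 h4 (K := 5 / 9) le_rfl (fun W hW W' hW' =>
    bd_small h3 (by norm_num) ((card_le_card hW').trans hW)) h univ subset_rfl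
  rw [Bd, N_eq h3] at h1
  have h2 : G.filter (· ⊆ univ) = G := filter_true_of_mem fun e _ => subset_univ e
  rw [h2, card_univ] at h1
  linarith

end Pool.Agent.T2H11.KS
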