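import Mathlib

set_option autoImplicit false

/-!
# 3-graphs without tetrahedra and uniform splits: definitions
-/

open Finset

namespace Pool.Agent.T2H11.KS

variable {V : Type} [DecidableEq V]

/-- a 3-graph is a set of triples -/
def ThreeGraph (G : Finset (Finset V)) : Prop := ∀ e ∈ G, e.card = 3

/-- no four vertices span all four triples -/
def TetrahedronFree (G : Finset (Finset V)) : Prop :=
  ∀ S : Finset V, S.card = 4 → ∃ e ⊆ S, e.card = 3 ∧ e ∉ G

/-- The disjoint sets `C`, `A`, `B` form a uniform split: whether a triple of `C ∪ A ∪ B` which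
meets `C` and `A ∪ B` is an edge depends only on the numbers of its elements in `C`, `A`, `B`. -/
def UniformSplit (G : Finset (Finset V)) (C A B : Finset V) : Prop :=
  Disjoint C A ∧ Disjoint C B ∧ Disjoint A B ∧
    ∀ e f : Finset V, e.card = 3 → f.card = 3 → e ⊆ C ∪ A ∪ B → f ⊆ C ∪ A ∪ B →
      (e ∩ C).Nonempty → ¬ e ⊆ C → (e ∩ C).card = (f ∩ C).card → (e ∩ A).card = (f ∩ A).card →
      (e ∩ B).card = (f ∩ B).card → e ∈ G → f ∈ G

/-- The sets which can be built from the sets with the property `base` by uniform splits. -/
inductive Reducible (G : Finset (Finset V)) (base : Finset V → Prop) : Finset V → Prop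
  | base {W : Finset V} : base W → Reducible G base W
  | split {C A B : Finset V} : UniformSplit G C A B → Reducible G base C →
      Reducible G base (A ∪ B) → Reducible G base (C ∪ (A ∪ B))

/-- the number of edges of `G` inside `W` -/
def edgesIn (G : Finset (Finset V)) (W : Finset V) : ℕ := (G.filter (· ⊆ W)).card

end Pool.Agent.T2H11.KS
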