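import Mathlib

set_option autoImplicit false

/-!
# Polynomial inequalities
-/

namespace Pool.Agent.T2H11.KS

variable {a b c : ℝ}

lemma i0a (ha : 0 ≤ a) (hb : 0 ≤ b) (hc : 0 ≤ c) :
    6 * c * a * b ≤ 5 / 9 * ((a + b + c) ^ 3 - (a + b) ^ 3 - c ^ 3) := by
  nlinarith [mul_nonneg hc (sq_nonneg (a - b)), mul_nonneg hc (mul_nonneg ha hb),
    mul_nonneg hc (mul_nonneg hc ha), mul_nonneg hc (mul_nonneg hc hb),
    mul_nonneg hc (sq_nonneg (a + b))]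

lemma i0b (ha : 0 ≤ a) (hb : 0 ≤ b) (hc : 0 ≤ c) :
    3 * c ^ 2 * a + 6 * c * a * b ≤ 5 / 9 * ((a + b + c) ^ 3 - (a + b) ^ 3) := by
  nlinarith [mul_nonneg hc (sq_nonneg (a - b)), mul_nonneg hc (mul_nonneg ha hb),
    mul_nonneg hc (mul_nonneg hc hb), mul_nonneg hc (sq_nonneg (a + b)),
    mul_nonneg hc (sq_nonneg (a - c)), mul_nonneg hc (sq_nonneg (2 * a - c)),
    mul_nonneg hc (sq_nonneg (2 * a - b - c)), mul_nonneg hc (sq_nonneg (3 * a - 2 * c)),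
    mul_nonneg hc (sq_nonneg c)]

lemma i0c (ha : 0 ≤ a) (hb : 0 ≤ b) (hc : 0 ≤ c) :
    3 * c ^ 2 * (a + b) ≤ 5 / 9 * ((a + b + c) ^ 3 - (a + b) ^ 3) := by
  nlinarith [mul_nonneg hc (sq_nonneg (3 * (a + b) - 2 * c)), mul_nonneg hc (sq_nonneg c),
    mul_nonneg hc (sq_nonneg (a + b - c)), mul_nonneg hc (sq_nonneg (2 * (a + b) - c)),
    mul_nonneg hc (mul_nonneg hc ha), mul_nonneg hc (mul_nonneg hc hb),
    mul_nonneg hc (sq_nonneg (a + b))]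

lemma i1oU (ha : 0 ≤ a) (hb : 0 ≤ b) (hc : 0 ≤ c) (h : a ≤ 2 * b) :
    3 * c * a ^ 2 ≤ 5 / 9 * ((a + b + c) ^ 3 - (a + b) ^ 3 - c ^ 3) := by
  nlinarith [mul_nonneg hc (mul_nonneg ha (sub_nonneg.2 h)),
    mul_nonneg hc (mul_nonneg hb (sub_nonneg.2 h)), mul_nonneg hc (mul_nonneg ha hb),
    mul_nonneg hc (mul_nonneg hc ha), mul_nonneg hc (mul_nonneg hc hb),
    mul_nonneg hc (sq_nonneg b)]

lemma i1xU (ha : 0 ≤ a) (hb : 0 ≤ b) (hc : 0 ≤ c) (h : a ≤ 2 * b) :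
    3 * c * a ^ 2 + 3 * c ^ 2 * b ≤ 5 / 9 * ((a + b + c) ^ 3 - (a + b) ^ 3) := by
  nlinarith [mul_nonneg hc (mul_nonneg ha (sub_nonneg.2 h)),
    mul_nonneg hc (mul_nonneg hb (sub_nonneg.2 h)), mul_nonneg hc (mul_nonneg ha hb),
    mul_nonneg hc (mul_nonneg hc ha), mul_nonneg hc (mul_nonneg hc hb),
    mul_nonneg hc (sq_nonneg b), mul_nonneg hc (sq_nonneg (b - c)),
    mul_nonneg hc (sq_nonneg (2 * b - c)), mul_nonneg hc (sq_nonneg (a + 2 * b - c)),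
    mul_nonneg hc (sq_nonneg (3 * b - 2 * c)), mul_nonneg hc (sq_nonneg (3 * b - c))]

lemma i1oS (ha : 0 ≤ a) (hb : 0 ≤ b) (hc : 0 ≤ c) (h : 2 * b ≤ a) :
    3 * c * a ^ 2 + 3 * a ^ 2 * b + 3 / 2 * b ^ 3 ≤
      5 / 9 * ((a + b + c) ^ 3 - b ^ 3 - c ^ 3) := by
  obtain ⟨x, rfl⟩ : ∃ x, a = 2 * b + x := ⟨a - 2 * b, by ring⟩
  have hx : 0 ≤ x := by linarith
  nlinarith [mul_nonneg hc (mul_nonneg hb hb), mul_nonneg hc (mul_nonneg hb hx),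
    mul_nonneg hx (mul_nonneg hb hb), mul_nonneg hx (mul_nonneg hx hb),
    mul_nonneg hx (mul_nonneg hx hx), mul_nonneg hb (mul_nonneg hb hb),
    mul_nonneg hc (mul_nonneg hc hb), mul_nonneg hx (sq_nonneg (x - c)),
    mul_nonneg hx (sq_nonneg (2 * x - 3 * c)), mul_nonneg hb (sq_nonneg (b - c)),
    mul_nonneg hb (sq_nonneg (x - c)), mul_nonneg hx (sq_nonneg (x - 2 * c)),
    mul_nonneg hb (sq_nonneg (b - x)), mul_nonneg hb (sq_nonneg (2 * b - x))]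

lemma i1xS (ha : 0 ≤ a) (hb : 0 ≤ b) (hc : 0 ≤ c) (h : 2 * b ≤ a) :
    3 * c * a ^ 2 + 3 * c ^ 2 * b + 3 * a ^ 2 * b + 3 / 2 * b ^ 3 ≤
      5 / 9 * ((a + b + c) ^ 3 - b ^ 3) := by
  obtain ⟨x, rfl⟩ : ∃ x, a = 2 * b + x := ⟨a - 2 * b, by ring⟩
  have hx : 0 ≤ x := by linarith
  nlinarith [mul_nonneg hc (mul_nonneg hb hb), mul_nonneg hc (mul_nonneg hb hx),
    mul_nonneg hx (mul_nonneg hb hb), mul_nonneg hx (mul_nonneg hx hb),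
    mul_nonneg hx (mul_nonneg hx hx), mul_nonneg hb (mul_nonneg hb hb),
    mul_nonneg hc (mul_nonneg hc hb), mul_nonneg hx (sq_nonneg (x - c)),
    mul_nonneg hx (sq_nonneg (2 * x - 3 * c)), mul_nonneg hb (sq_nonneg (b - c)),
    mul_nonneg hb (sq_nonneg (x - c)), mul_nonneg hx (sq_nonneg (x - 2 * c)),
    mul_nonneg hb (sq_nonneg (b - x)), mul_nonneg hb (sq_nonneg (2 * b - x)),
    mul_nonneg hc (mul_nonneg hc hc)]

lemma i2U (ha : 0 ≤ a) (hb : 0 ≤ b) (hc : 0 ≤ c) (h : 3 * a ≤ 5 * b) (h' : b ≤ a) :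
    3 * c * (a ^ 2 + b ^ 2) ≤ 5 / 9 * ((a + b + c) ^ 3 - (a + b) ^ 3 - c ^ 3) := by
  nlinarith [mul_nonneg hc (mul_nonneg (sub_nonneg.2 h) (sub_nonneg.2 h')),
    mul_nonneg hc (mul_nonneg ha hb), mul_nonneg hc (mul_nonneg hc ha),
    mul_nonneg hc (mul_nonneg hc hb), mul_nonneg hc (mul_nonneg ha (sub_nonneg.2 h)),
    mul_nonneg hc (mul_nonneg hb (sub_nonneg.2 h)), mul_nonneg hc (sq_nonneg b)]

lemma i2S (ha : 0 ≤ a) (hb : 0 ≤ b) (hc : 0 ≤ c) (h : 5 * b ≤ 3 * a) :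
    3 * c * (a ^ 2 + b ^ 2) + 3 * a ^ 2 * b + 3 / 2 * b ^ 3 ≤
      5 / 9 * ((a + b + c) ^ 3 - c ^ 3) := by
  obtain ⟨x, rfl⟩ : ∃ x, a = 5 / 3 * b + x := ⟨a - 5 / 3 * b, by ring⟩
  have hx : 0 ≤ x := by linarith
  nlinarith [mul_nonneg hc (mul_nonneg hb hb), mul_nonneg hc (mul_nonneg hb hx),
    mul_nonneg hx (mul_nonneg hb hb), mul_nonneg hx (mul_nonneg hx hb),
    mul_nonneg hx (mul_nonneg hx hx), mul_nonneg hb (mul_nonneg hb hb),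
    mul_nonneg hc (mul_nonneg hc hb), mul_nonneg hx (sq_nonneg (x - c)),
    mul_nonneg hx (sq_nonneg (2 * x - 3 * c)), mul_nonneg hb (sq_nonneg (b - c)),
    mul_nonneg hb (sq_nonneg (x - c)), mul_nonneg hx (sq_nonneg (x - 2 * c)),
    mul_nonneg hb (sq_nonneg (b - x)), mul_nonneg hb (sq_nonneg (2 * b - x))]

lemma i3ohi (ha : 0 ≤ a) (hb : 0 ≤ b) (hc : 0 ≤ c) (h : a ≤ b) :
    3 * c * b ^ 2 + 6 * c * a * b + 3 * a ^ 2 * b ≤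
      5 / 9 * ((a + b + c) ^ 3 - c ^ 3) := by
  obtain ⟨x, rfl⟩ : ∃ x, b = a + x := ⟨b - a, by ring⟩
  have hx : 0 ≤ x := by linarith
  nlinarith [mul_nonneg hc (mul_nonneg ha ha), mul_nonneg hc (mul_nonneg ha hx),
    mul_nonneg hx (mul_nonneg ha ha), mul_nonneg hx (mul_nonneg hx ha),
    mul_nonneg hx (mul_nonneg hx hx), mul_nonneg ha (mul_nonneg ha ha),
    mul_nonneg hc (mul_nonneg hc ha), mul_nonneg hx (sq_nonneg (x - c)),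
    mul_nonneg hx (sq_nonneg (2 * x - 3 * c)), mul_nonneg ha (sq_nonneg (a - c)),
    mul_nonneg ha (sq_nonneg (x - c)), mul_nonneg hx (sq_nonneg (x - 2 * c)),
    mul_nonneg ha (sq_nonneg (a - x)), mul_nonneg ha (sq_nonneg (2 * a - x)),
    mul_nonneg hx (sq_nonneg (a - c))]

lemma i4 (ha : 0 ≤ a) (hb : 0 ≤ b) (hc : 0 ≤ c) :
    3 * c * (a + b) ^ 2 ≤ 5 / 9 * ((a + b + c) ^ 3 - c ^ 3) := by
  nlinarith [mul_nonneg (add_nonneg ha hb) (sq_nonneg (2 * (a + b) - 3 * c)),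
    mul_nonneg (add_nonneg ha hb) (sq_nonneg (a + b - c)),
    mul_nonneg (add_nonneg ha hb) (sq_nonneg (a + b - 2 * c)),
    mul_nonneg (add_nonneg ha hb) (sq_nonneg c), mul_nonneg (add_nonneg ha hb) (sq_nonneg (a + b)),
    mul_nonneg (add_nonneg ha hb) (mul_nonneg hc (add_nonneg ha hb))]

lemma i3olow (ha : 0 ≤ a) (hb : 0 ≤ b) (hc : 0 ≤ c) (h : 11 * b ≤ 5 * a) :
    3 * c * b ^ 2 + 6 * c * a * b ≤ 5 / 9 * ((a + b + c) ^ 3 - (a + b) ^ 3 - c ^ 3) := by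
  nlinarith [mul_nonneg hc (mul_nonneg ha (sub_nonneg.2 h)),
    mul_nonneg hc (mul_nonneg hb (sub_nonneg.2 h)), mul_nonneg hc (mul_nonneg ha hb),
    mul_nonneg hc (mul_nonneg hc ha), mul_nonneg hc (mul_nonneg hc hb),
    mul_nonneg hc (sq_nonneg b)]

lemma i3xlow (ha : 0 ≤ a) (hb : 0 ≤ b) (hc : 0 ≤ c) (h : 11 * b ≤ 5 * a) :
    3 * c ^ 2 * a + 3 * c * b ^ 2 + 6 * c * a * b ≤
      5 / 9 * ((a + b + c) ^ 3 - (a + b) ^ 3) := by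
  obtain ⟨x, rfl⟩ : ∃ x, a = 11 / 5 * b + x := ⟨a - 11 / 5 * b, by ring⟩
  have hx : 0 ≤ x := by linarith
  nlinarith [mul_nonneg hc (mul_nonneg hb hb), mul_nonneg hc (mul_nonneg hb hx),
    mul_nonneg hc (mul_nonneg hx hx), mul_nonneg hc (sq_nonneg (x - c)),
    mul_nonneg hc (sq_nonneg (b - c)), mul_nonneg hc (sq_nonneg (b + x - c)),
    mul_nonneg hc (sq_nonneg (3 * x - 2 * c)), mul_nonneg hc (sq_nonneg (b - 2 * c)),
    mul_nonneg hc (sq_nonneg (b - 3 * c)), mul_nonneg hc (sq_nonneg (b + 4 * x - 3 * c)),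
    mul_nonneg hc (sq_nonneg (2 * b + 2 * x - c)), mul_nonneg hc (sq_nonneg (x - 2 * c))]


lemma amgm {b t : ℝ} (hb : 0 ≤ b) (ht : 0 ≤ t) : b * t ^ 2 ≤ 4 / 27 * (b + t) ^ 3 := by
  have h : 0 ≤ (t - 2 * b) ^ 2 * (4 * t + b) := by positivity
  nlinarith [h]

lemma cyc_aux (ha : 0 ≤ a) (hb : 0 ≤ b) (hc : 0 ≤ c) (h : 0 ≤ (b - c) * (a - b)) :
    a ^ 2 * b + b ^ 2 * c + c ^ 2 * a + a * b * c ≤ 4 / 27 * (a + b + c) ^ 3 := by
  have h1 := amgm hb (add_nonneg ha hc)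
  have h2 := mul_nonneg hc h
  have h3 : b + (a + c) = a + b + c := by ring
  rw [h3] at h1
  nlinarith [h1, h2]

lemma cyc (ha : 0 ≤ a) (hb : 0 ≤ b) (hc : 0 ≤ c) :
    a ^ 2 * b + b ^ 2 * c + c ^ 2 * a + a * b * c ≤ 4 / 27 * (a + b + c) ^ 3 := by
  have key : 0 ≤ (b - c) * (a - b) ∨ 0 ≤ (c - a) * (b - c) ∨ 0 ≤ (a - b) * (c - a) := by
    rcases le_total a b with h1 | h1 <;> rcases le_total b c with h2 | h2 <;>
      rcases le_total a c with h3 | h3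
    · exact Or.inl (by nlinarith)
    · exact Or.inl (by nlinarith)
    · right; left; nlinarith
    · right; right; nlinarith
    · right; right; nlinarith
    · right; left; nlinarith
    · left; nlinarith
    · left; nlinarith
  rcases key with h | h | h
  · exact cyc_aux ha hb hc h
  · have := cyc_aux hb hc ha h
    nlinarith [this]
  · have := cyc_aux hc ha hb h
    nlinarith [this]

lemma abc27 (ha : 0 ≤ a) (hb : 0 ≤ b) (hc : 0 ≤ c) : a * b * c ≤ 1 / 27 * (a + b + c) ^ 3 := by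
  nlinarith [mul_nonneg ha (sq_nonneg (b - c)), mul_nonneg hb (sq_nonneg (a - c)),
    mul_nonneg hc (sq_nonneg (a - b)), mul_nonneg ha (sq_nonneg (a - b)),
    mul_nonneg ha (sq_nonneg (a - c)), mul_nonneg hb (sq_nonneg (b - c)),
    mul_nonneg hb (sq_nonneg (b - a)), mul_nonneg hc (sq_nonneg (c - a)),
    mul_nonneg hc (sq_nonneg (c - b))]

/-- the density of Turán's construction with parts of sizes `a`, `b`, `c` -/
lemma i3xhi (ha : 0 ≤ a) (hb : 0 ≤ b) (hc : 0 ≤ c) :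
    3 * c ^ 2 * a + 3 * c * b ^ 2 + 6 * c * a * b + 3 * a ^ 2 * b ≤ 5 / 9 * (a + b + c) ^ 3 := by
  have h1 := cyc ha hb hc
  have h2 := abc27 ha hb hc
  nlinarith [h1, h2]

lemma i3xmid (ha : 0 ≤ a) (hb : 0 ≤ b) (hc : 0 ≤ c) (h : 5 * a ≤ 11 * b) (h' : b ≤ a) :
    3 * c ^ 2 * a + 3 * c * b ^ 2 + 6 * c * a * b + 3 * a ^ 2 * b + 9 / 8 * a * (a - b) ^ 2 ≤
      5 / 9 * (a + b + c) ^ 3 := by
  obtain ⟨x, rfl⟩ : ∃ x, a = b + x := ⟨a - b, by ring⟩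
  obtain ⟨y, rfl⟩ : ∃ y, c = b + y := ⟨c - b, by ring⟩
  have hx : 0 ≤ x := by linarith
  have hQ : 0 ≤ 7 / 8 * x ^ 2 - 2 * x * y + 2 * y ^ 2 := by nlinarith [sq_nonneg (2 * y - x), sq_nonneg x]
  have e : 5 / 9 * (b + x + b + (b + y)) ^ 3 - (3 * (b + y) ^ 2 * (b + x) + 3 * (b + y) * b ^ 2 +
      6 * (b + y) * (b + x) * b + 3 * (b + x) ^ 2 * b + 9 / 8 * (b + x) * (b + x - b) ^ 2) =
      b * (7 / 8 * x ^ 2 - 2 * x * y + 2 * y ^ 2) +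
        (5 / 9 * (x + y) ^ 3 - 3 * x * y ^ 2 - 9 / 8 * x ^ 3) := by ring
  suffices 0 ≤ b * (7 / 8 * x ^ 2 - 2 * x * y + 2 * y ^ 2) +
        (5 / 9 * (x + y) ^ 3 - 3 * x * y ^ 2 - 9 / 8 * x ^ 3) by linarith
  rcases le_total (-(5 / 6) * x) y with hy | hy
  · have h1 : 0 ≤ (b - 5 / 6 * x) * (7 / 8 * x ^ 2 - 2 * x * y + 2 * y ^ 2) :=
      mul_nonneg (by linarith) hQ
    obtain ⟨w, rfl⟩ : ∃ w, y = -(5 / 6) * x + w := ⟨y + 5 / 6 * x, by ring⟩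
    have hw : 0 ≤ w := by linarith
    nlinarith [h1, mul_nonneg hx (mul_nonneg hx hx), mul_nonneg hx (mul_nonneg hx hw),
      mul_nonneg hx (mul_nonneg hw hw), mul_nonneg hw (mul_nonneg hw hw),
      mul_nonneg hw (sq_nonneg (x - w)), mul_nonneg hx (sq_nonneg (x - w)),
      mul_nonneg hx (sq_nonneg (x - 2 * w)), mul_nonneg hw (sq_nonneg (x - 2 * w))]
  · obtain ⟨z, rfl⟩ : ∃ z, y = -z := ⟨-y, by ring⟩
    have hz : 5 / 6 * x ≤ z := by linarith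
    have h1 : 0 ≤ (b - z) * (7 / 8 * x ^ 2 - 2 * x * (-z) + 2 * (-z) ^ 2) :=
      mul_nonneg (by linarith) hQ
    obtain ⟨w, rfl⟩ : ∃ w, z = 5 / 6 * x + w := ⟨z - 5 / 6 * x, by ring⟩
    have hw : 0 ≤ w := by linarith
    nlinarith [h1, mul_nonneg hx (mul_nonneg hx hx), mul_nonneg hx (mul_nonneg hx hw),
      mul_nonneg hx (mul_nonneg hw hw), mul_nonneg hw (mul_nonneg hw hw)]

lemma i3omid (ha : 0 ≤ a) (hb : 0 ≤ b) (hc : 0 ≤ c) (h : 5 * a ≤ 11 * b) (h' : b ≤ a) :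
    3 * c * b ^ 2 + 6 * c * a * b + 3 * a ^ 2 * b + 9 / 8 * a * (a - b) ^ 2 ≤
      5 / 9 * ((a + b + c) ^ 3 - c ^ 3) := by
  obtain ⟨x, rfl⟩ : ∃ x, a = b + x := ⟨a - b, by ring⟩
  have hx : 0 ≤ x := by linarith
  obtain ⟨w, rfl⟩ : ∃ w, b = 5 / 6 * x + w := ⟨b - 5 / 6 * x, by ring⟩
  have hw : 0 ≤ w := by linarith
  nlinarith [mul_nonneg hx (mul_nonneg hx hx), mul_nonneg hx (mul_nonneg hx hw),
      mul_nonneg hx (mul_nonneg hw hw), mul_nonneg hw (mul_nonneg hw hw),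
      mul_nonneg hc (mul_nonneg hx hx), mul_nonneg hc (mul_nonneg hx hw),
      mul_nonneg hc (mul_nonneg hw hw), mul_nonneg hc (mul_nonneg hc hx),
      mul_nonneg hc (mul_nonneg hc hw), mul_nonneg hx (sq_nonneg (x - c)),
      mul_nonneg hw (sq_nonneg (w - c)), mul_nonneg hx (sq_nonneg (w - c)),
      mul_nonneg hw (sq_nonneg (x - c)), mul_nonneg hw (sq_nonneg (x + w - c)),
      mul_nonneg hx (sq_nonneg (x + w - c)), mul_nonneg hw (sq_nonneg (2 * w - c)),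
      mul_nonneg hx (sq_nonneg (2 * x - c)), mul_nonneg hw (sq_nonneg (3 * w - 2 * c))]

end Pool.Agent.T2H11.KS
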