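import Mathlib
import Pool.Agent.T2H11.KS.Defs

set_option autoImplicit false

/-!
# Ordered triples of a 3-graph
-/

open Finset

namespace Pool.Agent.T2H11.KS

variable {V : Type} [DecidableEq V]

/-- indicator of an ordered triple -/
def ind (G : Finset (Finset V)) (x y z : V) : ℝ := if ({x, y, z} : Finset V) ∈ G then 1 else 0

/-- number of ordered triples in `X × Y × Z` which form an edge -/
def N (G : Finset (Finset V)) (X Y Z : Finset V) : ℝ :=
  ∑ x ∈ X, ∑ y ∈ Y, ∑ z ∈ Z, ind G x y z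

variable {G : Finset (Finset V)}

lemma ind_swap (x y z : V) : ind G x y z = ind G y x z := by
  rw [ind, ind, insert_comm]

lemma ind_swap' (x y z : V) : ind G x y z = ind G x z y := by
  rw [ind, ind, pair_comm]

lemma ind_nonneg (x y z : V) : 0 ≤ ind G x y z := by
  rw [ind]; split_ifs <;> norm_num

lemma ind_le_one (x y z : V) : ind G x y z ≤ 1 := by
  rw [ind]; split_ifs <;> norm_num

lemma ind_cases (x y z : V) : ind G x y z = 0 ∨ ind G x y z = 1 := by
  rw [ind]; split_ifs <;> simp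

lemma ind_eq_one {x y z : V} : ind G x y z = 1 ↔ ({x, y, z} : Finset V) ∈ G := by
  rw [ind]; split_ifs with h <;> simp [h]

lemma N_comm (X Y Z : Finset V) : N G X Y Z = N G Y X Z := by
  rw [N, N, sum_comm]
  exact sum_congr rfl fun y _ => sum_congr rfl fun x _ => sum_congr rfl fun z _ => ind_swap _ _ _

lemma N_comm' (X Y Z : Finset V) : N G X Y Z = N G X Z Y := by
  rw [N, N]
  refine sum_congr rfl fun x _ => ?_
  rw [sum_comm]
  exact sum_congr rfl fun y _ => sum_congr rfl fun z _ => ind_swap' _ _ _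

lemma N_nonneg (X Y Z : Finset V) : 0 ≤ N G X Y Z :=
  sum_nonneg fun _ _ => sum_nonneg fun _ _ => sum_nonneg fun _ _ => ind_nonneg _ _ _

lemma N_le (X Y Z : Finset V) : N G X Y Z ≤ X.card * Y.card * Z.card := by
  have h : N G X Y Z ≤ ∑ x ∈ X, ∑ y ∈ Y, ∑ z ∈ Z, (1 : ℝ) :=
    sum_le_sum fun _ _ => sum_le_sum fun _ _ => sum_le_sum fun _ _ => ind_le_one _ _ _
  refine h.trans (le_of_eq ?_)
  simp only [sum_const, nsmul_eq_mul, mul_one]
  ring

lemma N_union {X X' : Finset V} (h : Disjoint X X') (Y Z : Finset V) :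
    N G (X ∪ X') Y Z = N G X Y Z + N G X' Y Z := by
  rw [N, N, N, sum_union h]

lemma N_eq_zero {X Y Z : Finset V} (h : ∀ x ∈ X, ∀ y ∈ Y, ∀ z ∈ Z, ({x, y, z} : Finset V) ∉ G) :
    N G X Y Z = 0 := by
  refine sum_eq_zero fun x hx => sum_eq_zero fun y hy => sum_eq_zero fun z hz => ?_
  rw [ind, if_neg (h x hx y hy z hz)]

/-- expansion for a union of two sets -/
lemma N_expand {C U : Finset V} (h : Disjoint C U) :
    N G (C ∪ U) (C ∪ U) (C ∪ U) =
      N G C C C + 3 * N G C C U + 3 * N G C U U + N G U U U := by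
  have e1 : N G (C ∪ U) (C ∪ U) (C ∪ U) = N G C (C ∪ U) (C ∪ U) + N G U (C ∪ U) (C ∪ U) :=
    N_union h _ _
  have e2 : ∀ X, N G X (C ∪ U) (C ∪ U) = N G X C (C ∪ U) + N G X U (C ∪ U) := by
    intro X
    rw [N_comm X, N_union h, N_comm C, N_comm U]
  have e3 : ∀ X Y, N G X Y (C ∪ U) = N G X Y C + N G X Y U := by
    intro X Y
    rw [N_comm' X, N_comm X, N_union h, N_comm C, N_comm U, N_comm' X C, N_comm' X U]
  rw [e1, e2, e2, e3, e3, e3, e3, N_comm' C U C, N_comm U C C, N_comm' C U C, N_comm U C U,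
    N_comm' U U C, N_comm U C U]
  ring

/-- four points never have all four triples -/
lemma four_le (h3 : ThreeGraph G) (h4 : TetrahedronFree G) (w x y z : V) :
    ind G w x y + ind G w x z + ind G w y z + ind G x y z ≤ 3 := by
  by_contra hcon
  push Not at hcon
  have hwxy : ({w, x, y} : Finset V) ∈ G := by
    rw [← ind_eq_one]
    rcases ind_cases (G := G) w x y with h | h
    · linarith [ind_le_one (G := G) w x z, ind_le_one (G := G) w y z, ind_le_one (G := G) x y z]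
    · exact h
  have hwxz : ({w, x, z} : Finset V) ∈ G := by
    rw [← ind_eq_one]
    rcases ind_cases (G := G) w x z with h | h
    · linarith [ind_le_one (G := G) w x y, ind_le_one (G := G) w y z, ind_le_one (G := G) x y z]
    · exact h
  have hwyz : ({w, y, z} : Finset V) ∈ G := by
    rw [← ind_eq_one]
    rcases ind_cases (G := G) w y z with h | h
    · linarith [ind_le_one (G := G) w x y, ind_le_one (G := G) w x z, ind_le_one (G := G) x y z]
    · exact h
  have hxyz : ({x, y, z} : Finset V) ∈ G := by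
    rw [← ind_eq_one]
    rcases ind_cases (G := G) x y z with h | h
    · linarith [ind_le_one (G := G) w x y, ind_le_one (G := G) w x z, ind_le_one (G := G) w y z]
    · exact h
  have key : ∀ p q s : V, ({p, q, s} : Finset V) ∈ G → p ≠ q ∧ p ≠ s ∧ q ≠ s := by
    intro p q s h
    have hc := h3 _ h
    refine ⟨?_, ?_, ?_⟩
    · rintro rfl
      have h9 : ({p, p, s} : Finset V) = {p, s} := by ext u; simp
      rw [h9] at hc
      have := card_le_two (a := p) (b := s)
      omega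
    · rintro rfl
      have h9 : ({p, q, p} : Finset V) = {p, q} := by ext u; simp; tauto
      rw [h9] at hc
      have := card_le_two (a := p) (b := q)
      omega
    · rintro rfl
      have h9 : ({p, q, q} : Finset V) = {p, q} := by ext u; simp
      rw [h9] at hc
      have := card_le_two (a := p) (b := q)
      omega
  obtain ⟨h1, h2, h5⟩ := key _ _ _ hwxy
  obtain ⟨-, h6, h7⟩ := key _ _ _ hwxz
  obtain ⟨-, -, h8⟩ := key _ _ _ hwyz
  have hS : ({w, x, y, z} : Finset V).card = 4 := by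
    rw [card_insert_of_notMem, card_insert_of_notMem, card_insert_of_notMem, card_singleton]
    · simpa using h8
    · simp [h5, h7]
    · simp [h1, h2, h6]
  obtain ⟨e, he, hec, heG⟩ := h4 _ hS
  have hsd : ∃ v ∈ ({w, x, y, z} : Finset V), v ∉ e := by
    by_contra hh
    push Not at hh
    have h9 : ({w, x, y, z} : Finset V) ⊆ e := fun v hv => hh v hv
    have h10 := card_le_card h9
    omega
  obtain ⟨v, hv, hve⟩ := hsd
  have hee : e = ({w, x, y, z} : Finset V).erase v := by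
    refine eq_of_subset_of_card_le ?_ ?_
    · intro u hu
      rw [mem_erase]
      exact ⟨fun h => hve (h ▸ hu), he hu⟩
    · rw [card_erase_of_mem hv]
      omega
  apply heG
  rw [hee]
  simp only [mem_insert, mem_singleton] at hv
  rcases hv with rfl | rfl | rfl | rfl
  · have : ({v, x, y, z} : Finset V).erase v = {x, y, z} := by
      ext u
      simp only [mem_erase, mem_insert, mem_singleton]
      constructor
      · rintro ⟨h, h' | h'⟩
        · exact absurd h' h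
        · exact h'
      · rintro (rfl | rfl | rfl)
        · exact ⟨Ne.symm h1, by simp⟩
        · exact ⟨Ne.symm h2, by simp⟩
        · exact ⟨Ne.symm h6, by simp⟩
    rw [this]; exact hxyz
  · have : ({w, v, y, z} : Finset V).erase v = {w, y, z} := by
      ext u
      simp only [mem_erase, mem_insert, mem_singleton]
      constructor
      · rintro ⟨h, h' | h' | h'⟩
        · exact Or.inl h'
        · exact absurd h' h
        · exact Or.inr h'
      · rintro (rfl | rfl | rfl)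
        · exact ⟨h1, by simp⟩
        · exact ⟨Ne.symm h5, by simp⟩
        · exact ⟨Ne.symm h7, by simp⟩
    rw [this]; exact hwyz
  · have : ({w, x, v, z} : Finset V).erase v = {w, x, z} := by
      ext u
      simp only [mem_erase, mem_insert, mem_singleton]
      constructor
      · rintro ⟨h, h' | h' | h' | h'⟩
        · exact Or.inl h'
        · exact Or.inr (Or.inl h')
        · exact absurd h' h
        · exact Or.inr (Or.inr h')
      · rintro (rfl | rfl | rfl)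
        · exact ⟨h2, by simp⟩
        · exact ⟨h5, by simp⟩
        · exact ⟨Ne.symm h8, by simp⟩
    rw [this]; exact hwxz
  · have : ({w, x, y, v} : Finset V).erase v = {w, x, y} := by
      ext u
      simp only [mem_erase, mem_insert, mem_singleton]
      constructor
      · rintro ⟨h, h' | h' | h' | h'⟩
        · exact Or.inl h'
        · exact Or.inr (Or.inl h')
        · exact Or.inr (Or.inr h')
        · exact absurd h' h
      · rintro (rfl | rfl | rfl)
        · exact ⟨h6, by simp⟩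
        · exact ⟨h7, by simp⟩
        · exact ⟨h8, by simp⟩
    rw [this]; exact hwxy

omit [DecidableEq V] in
lemma sq_sum2 (B : Finset V) (g : V → V → ℝ) : (∑ x ∈ B, ∑ y ∈ B, g x y) ^ 2 ≤
    (B.card : ℝ) ^ 2 * ∑ x ∈ B, ∑ y ∈ B, g x y ^ 2 := by
  rw [← sum_product', ← sum_product']
  have h8 := sq_sum_le_card_mul_sum_sq (s := B ×ˢ B) (f := fun p => g p.1 p.2)
  rw [card_product] at h8
  refine h8.trans (le_of_eq ?_)
  push_cast
  ring

omit [DecidableEq V] in
lemma sum3_lin (A : Finset V) (f1 f2 f3 f4 f5 f6 : V → V → V → ℝ) :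
    ∑ x ∈ A, ∑ y ∈ A, ∑ z ∈ A, (f1 x y z + f2 x y z + f3 x y z -
      2 / 3 * (f4 x y z + f5 x y z + f6 x y z)) =
    (∑ x ∈ A, ∑ y ∈ A, ∑ z ∈ A, f1 x y z) + (∑ x ∈ A, ∑ y ∈ A, ∑ z ∈ A, f2 x y z) +
      (∑ x ∈ A, ∑ y ∈ A, ∑ z ∈ A, f3 x y z) -
      2 / 3 * ((∑ x ∈ A, ∑ y ∈ A, ∑ z ∈ A, f4 x y z) + (∑ x ∈ A, ∑ y ∈ A, ∑ z ∈ A, f5 x y z) +
        (∑ x ∈ A, ∑ y ∈ A, ∑ z ∈ A, f6 x y z)) := by
  simp only [sum_sub_distrib, sum_add_distrib, ← mul_sum]

/-- **Triples meeting two independent sets.** -/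
lemma aab_abb (h3 : ThreeGraph G) (h4 : TetrahedronFree G) (A B : Finset V) :
    N G A A B + N G A B B ≤ (A.card : ℝ) ^ 2 * B.card + 1 / 2 * (B.card : ℝ) ^ 3 := by
  rcases B.eq_empty_or_nonempty with rfl | hB
  · simp [N]
  have hb : (0 : ℝ) < B.card := by exact_mod_cast card_pos.2 hB
  set a : ℝ := (A.card : ℝ) with ha
  set b : ℝ := (B.card : ℝ) with hbdef
  set g : V → V → ℝ := fun b1 b2 => ∑ x ∈ A, ind G x b1 b2 with hg
  have h1 : ∑ b1 ∈ B, ∑ b2 ∈ B, ∑ x ∈ A, ∑ y ∈ A,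
      (ind G x y b1 + ind G x y b2 + ind G x b1 b2 * ind G y b1 b2) ≤ 2 * a ^ 2 * b ^ 2 := by
    have h2 : ∑ b1 ∈ B, ∑ b2 ∈ B, ∑ x ∈ A, ∑ y ∈ A,
      (ind G x y b1 + ind G x y b2 + ind G x b1 b2 * ind G y b1 b2) ≤
        ∑ b1 ∈ B, ∑ b2 ∈ B, ∑ x ∈ A, ∑ y ∈ A, (2 : ℝ) := by
      refine sum_le_sum fun b1 _ => sum_le_sum fun b2 _ => sum_le_sum fun x _ =>
        sum_le_sum fun y _ => ?_
      have h5 := four_le h3 h4 x y b1 b2
      rcases ind_cases (G := G) x b1 b2 with h6 | h6 <;>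
        rcases ind_cases (G := G) y b1 b2 with h7 | h7 <;> rw [h6, h7] at h5 ⊢ <;>
        linarith [ind_le_one (G := G) x y b1, ind_le_one (G := G) x y b2]
    refine h2.trans (le_of_eq ?_)
    simp only [sum_const, nsmul_eq_mul]
    rw [← ha, ← hbdef]
    ring
  have h5 : ∑ b1 ∈ B, ∑ b2 ∈ B, ∑ x ∈ A, ∑ y ∈ A,
      (ind G x y b1 + ind G x y b2 + ind G x b1 b2 * ind G y b1 b2) =
      2 * b * N G A A B + ∑ b1 ∈ B, ∑ b2 ∈ B, g b1 b2 ^ 2 := by
    have e1 : ∑ b1 ∈ B, ∑ b2 ∈ B, ∑ x ∈ A, ∑ y ∈ A, ind G x y b1 = b * N G A A B := by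
      have e4 : N G A A B = ∑ b1 ∈ B, ∑ x ∈ A, ∑ y ∈ A, ind G x y b1 := by
        rw [N_comm', N_comm, N]
        refine sum_congr rfl fun b1 _ => sum_congr rfl fun x _ => sum_congr rfl fun y _ => ?_
        rw [ind_swap, ind_swap']
      rw [e4, mul_sum]
      refine sum_congr rfl fun b1 _ => ?_
      rw [sum_const, nsmul_eq_mul]
    have e2 : ∑ b1 ∈ B, ∑ b2 ∈ B, ∑ x ∈ A, ∑ y ∈ A, ind G x y b2 = b * N G A A B := by
      rw [sum_comm, e1]
    have e3 : ∑ b1 ∈ B, ∑ b2 ∈ B, ∑ x ∈ A, ∑ y ∈ A, ind G x b1 b2 * ind G y b1 b2 =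
        ∑ b1 ∈ B, ∑ b2 ∈ B, g b1 b2 ^ 2 := by
      refine sum_congr rfl fun b1 _ => sum_congr rfl fun b2 _ => ?_
      rw [sq, hg]
      simp only [sum_mul_sum]
    simp only [sum_add_distrib]
    rw [e1, e2, e3]
    ring
  have h6 : N G A B B = ∑ b1 ∈ B, ∑ b2 ∈ B, g b1 b2 := by
    rw [N, sum_comm]
    refine sum_congr rfl fun b1 _ => ?_
    rw [sum_comm]
  have h7 : (N G A B B) ^ 2 ≤ b ^ 2 * ∑ b1 ∈ B, ∑ b2 ∈ B, g b1 b2 ^ 2 := by
    rw [h6]
    exact sq_sum2 B g
  rw [h5] at h1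
  set M := N G A B B with hM
  set L := N G A A B with hL
  have h9 : 2 * b ^ 3 * L + M ^ 2 ≤ 2 * a ^ 2 * b ^ 4 := by
    nlinarith [h1, h7, sq_nonneg b]
  have h10 : 0 ≤ (M - b ^ 3) ^ 2 := sq_nonneg _
  have h11 : 2 * b ^ 3 * (L + M) ≤ 2 * b ^ 3 * (a ^ 2 * b + 1 / 2 * b ^ 3) := by
    nlinarith [h9, h10]
  have h12 : 0 < 2 * b ^ 3 := by positivity
  exact le_of_mul_le_mul_left h11 h12

/-- Goodman's inequality for the link of one vertex -/
lemma goodman (h3 : ThreeGraph G) (h4 : TetrahedronFree G) (A : Finset V) (v : V) {Q : ℝ}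
    (hQ : Q = ∑ x ∈ A, ∑ y ∈ A, (1 - ind G x y v)) :
    A.card * N G A A A ≤ 3 * (A.card : ℝ) ^ 2 * Q - 2 * Q ^ 2 := by
  set a : ℝ := (A.card : ℝ) with ha
  have ha0 : 0 ≤ a := by positivity
  set m : V → V → ℝ := fun x y => 1 - ind G x y v with hm
  have hsymm : ∀ x y, m x y = m y x := fun x y => by rw [hm]; simp only; rw [ind_swap]
  set r : V → ℝ := fun x => ∑ y ∈ A, m x y with hr
  have hQ' : Q = ∑ x ∈ A, r x := hQ
  have hpt : ∀ x y z, ind G x y z ≤ m x y + m y z + m x z -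
      2 / 3 * (m x y * m y z + m x y * m x z + m y z * m x z) := by
    intro x y z
    have h5 := four_le h3 h4 x y z v
    have h6 := ind_le_one (G := G) x y z
    rcases ind_cases (G := G) x y v with h7 | h7 <;>
      rcases ind_cases (G := G) y z v with h8 | h8 <;>
      rcases ind_cases (G := G) x z v with h9 | h9 <;>
      simp only [hm, h7, h8, h9] at h5 ⊢ <;> linarith
  have h5 : N G A A A ≤ ∑ x ∈ A, ∑ y ∈ A, ∑ z ∈ A, (m x y + m y z + m x z -
      2 / 3 * (m x y * m y z + m x y * m x z + m y z * m x z)) :=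
    sum_le_sum fun x _ => sum_le_sum fun y _ => sum_le_sum fun z _ => hpt x y z
  have e1 : ∑ x ∈ A, ∑ y ∈ A, ∑ z ∈ A, m x y = a * Q := by
    rw [hQ', mul_sum]
    refine sum_congr rfl fun x _ => ?_
    rw [hr, mul_sum]
    refine sum_congr rfl fun y _ => ?_
    rw [sum_const, nsmul_eq_mul]
  have e2 : ∑ x ∈ A, ∑ y ∈ A, ∑ z ∈ A, m y z = a * Q := by
    rw [sum_const, nsmul_eq_mul, hQ', ← ha]
  have e3 : ∑ x ∈ A, ∑ y ∈ A, ∑ z ∈ A, m x z = a * Q := by
    rw [hQ', mul_sum]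
    refine sum_congr rfl fun x _ => ?_
    rw [sum_const, nsmul_eq_mul]
  have e4 : ∑ x ∈ A, ∑ y ∈ A, ∑ z ∈ A, m x y * m x z = ∑ x ∈ A, r x ^ 2 := by
    refine sum_congr rfl fun x _ => ?_
    rw [sq, hr]
    simp only [sum_mul_sum]
  have e5 : ∑ x ∈ A, ∑ y ∈ A, ∑ z ∈ A, m x y * m y z = ∑ x ∈ A, r x ^ 2 := by
    rw [sum_comm]
    refine sum_congr rfl fun y _ => ?_
    rw [sq, hr]
    simp only [sum_mul_sum]
    refine sum_congr rfl fun x _ => sum_congr rfl fun z _ => ?_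
    rw [hsymm x y]
  have e6 : ∑ x ∈ A, ∑ y ∈ A, ∑ z ∈ A, m y z * m x z = ∑ x ∈ A, r x ^ 2 := by
    have : ∑ x ∈ A, ∑ y ∈ A, ∑ z ∈ A, m y z * m x z =
        ∑ z ∈ A, ∑ x ∈ A, ∑ y ∈ A, m z x * m z y := by
      rw [sum_comm]
      have : ∀ y ∈ A, ∑ x ∈ A, ∑ z ∈ A, m y z * m x z = ∑ z ∈ A, ∑ x ∈ A, m y z * m x z :=
        fun y _ => sum_comm
      rw [sum_congr rfl this, sum_comm]
      refine sum_congr rfl fun z _ => ?_
      refine sum_congr rfl fun x _ => sum_congr rfl fun y _ => ?_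
      rw [hsymm x z, hsymm y z]
    rw [this, e4]
  have h6 : N G A A A ≤ 3 * a * Q - 2 * ∑ x ∈ A, r x ^ 2 := by
    refine h5.trans (le_of_eq ?_)
    rw [sum3_lin A (fun x y z => m x y) (fun x y z => m y z) (fun x y z => m x z)
      (fun x y z => m x y * m y z) (fun x y z => m x y * m x z) (fun x y z => m y z * m x z),
      e1, e2, e3, e4, e5, e6]
    ring
  have h7 : Q ^ 2 ≤ a * ∑ x ∈ A, r x ^ 2 := by
    rw [hQ']
    exact sq_sum_le_card_mul_sum_sq
  nlinarith [mul_le_mul_of_nonneg_left h6 ha0, h7]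

/-- **Triples with at least two vertices in `A`.** -/
lemma aaa_aab (h3 : ThreeGraph G) (h4 : TetrahedronFree G) {A B : Finset V} (hB : B.Nonempty) :
    (A.card ≤ B.card → N G A A A + 3 * N G A A B ≤ 3 * (A.card : ℝ) ^ 2 * B.card) ∧
    (B.card ≤ A.card → N G A A A + 3 * N G A A B ≤
      3 * (A.card : ℝ) ^ 2 * B.card + 9 / 8 * A.card * ((A.card : ℝ) - B.card) ^ 2) := by
  rcases A.eq_empty_or_nonempty with rfl | hA
  · simp [N]
  set a : ℝ := (A.card : ℝ) with ha
  set b : ℝ := (B.card : ℝ) with hb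
  have hb0 : 0 < b := by rw [hb]; exact_mod_cast card_pos.2 hB
  have ha0 : 0 < a := by rw [ha]; exact_mod_cast card_pos.2 hA
  set Q : V → ℝ := fun v => ∑ x ∈ A, ∑ y ∈ A, (1 - ind G x y v) with hQ
  have hQ0 : ∀ v, 0 ≤ Q v := fun v =>
    sum_nonneg fun x _ => sum_nonneg fun y _ => by linarith [ind_le_one (G := G) x y v]
  have h1 : N G A A B = a ^ 2 * b - ∑ v ∈ B, Q v := by
    have e4 : N G A A B = ∑ v ∈ B, ∑ x ∈ A, ∑ y ∈ A, ind G x y v := by
      rw [N_comm', N_comm, N]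
      refine sum_congr rfl fun b1 _ => sum_congr rfl fun x _ => sum_congr rfl fun y _ => ?_
      rw [ind_swap, ind_swap']
    have e5 : ∑ v ∈ B, Q v = a ^ 2 * b - ∑ v ∈ B, ∑ x ∈ A, ∑ y ∈ A, ind G x y v := by
      rw [hQ]
      simp only [sum_sub_distrib, sum_const, nsmul_eq_mul, mul_one]
      rw [← ha, ← hb]
      ring
    rw [e4, e5]
    ring
  have h2 : ∀ v ∈ B, a * N G A A A ≤ 3 * a ^ 2 * Q v - 2 * Q v ^ 2 := fun v _ =>
    goodman h3 h4 A v rfl
  set E := N G A A A with hE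
  constructor
  · intro hab
    have hab' : a ≤ b := by rw [ha, hb]; exact_mod_cast hab
    have h5 : ∑ v ∈ B, E ≤ ∑ v ∈ B, 3 * a * Q v := by
      refine sum_le_sum fun v hv => ?_
      have h6 := h2 v hv
      have h7 : a * E ≤ a * (3 * a * Q v) := by nlinarith [sq_nonneg (Q v)]
      exact le_of_mul_le_mul_left h7 ha0
    rw [sum_const, nsmul_eq_mul, ← mul_sum, ← hb] at h5
    have hE0 : 0 ≤ E := N_nonneg _ _ _
    have h8 : a * E ≤ a * (3 * ∑ v ∈ B, Q v) := by nlinarith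
    have h9 := le_of_mul_le_mul_left h8 ha0
    rw [h1]
    linarith
  · intro hab
    have hab' : b ≤ a := by rw [ha, hb]; exact_mod_cast hab
    have h5 : ∑ v ∈ B, (E - 3 * b * Q v) ≤ ∑ v ∈ B, 9 / 8 * a * (a - b) ^ 2 := by
      refine sum_le_sum fun v hv => ?_
      have h6 := h2 v hv
      have h7 : a * (E - 3 * b * Q v) ≤ a * (9 / 8 * a * (a - b) ^ 2) := by
        nlinarith [sq_nonneg (4 * Q v - 3 * a * (a - b))]
      exact le_of_mul_le_mul_left h7 ha0
    rw [sum_sub_distrib, sum_const, sum_const, nsmul_eq_mul, nsmul_eq_mul, ← mul_sum, ← hb] at h5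
    have h8 : b * (E - 3 * ∑ v ∈ B, Q v) ≤ b * (9 / 8 * a * (a - b) ^ 2) := by nlinarith
    have h9 := le_of_mul_le_mul_left h8 hb0
    rw [h1]
    linarith

end Pool.Agent.T2H11.KS
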