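import Pool.Agent.T2H11.KS.Ineq
import Pool.Agent.T2H11.KS.Sum

set_option autoImplicit false

/-!
# Uniform splits
-/

open Finset

namespace Pool.Agent.T2H11.KS

variable {V : Type} [DecidableEq V]

variable {G : Finset (Finset V)}

lemma UniformSplit.symm {C A B : Finset V} (h : UniformSplit G C A B) : UniformSplit G C B A := by
  obtain ⟨h1, h2, h3, h4⟩ := h
  have e : C ∪ B ∪ A = C ∪ A ∪ B := union_right_comm C B A
  refine ⟨h2, h1, h3.symm, ?_⟩
  rw [e]
  intro e f he hf heS hfS hC hnC c1 c2 c3 heG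
  exact h4 e f he hf heS hfS hC hnC c1 c3 c2 heG

lemma distinct_of_mem (h3 : ThreeGraph G) {p q s : V} (h : ({p, q, s} : Finset V) ∈ G) :
    p ≠ q ∧ p ≠ s ∧ q ≠ s := by
  have hc := h3 _ h
  refine ⟨?_, ?_, ?_⟩
  · rintro rfl
    have h9 : ({p, p, s} : Finset V) = {p, s} := by ext u; simp
    rw [h9] at hc
    have := card_le_two (a := p) (b := s)
    omega
  · rintro rfl
    have h9 : ({p, q, p} : Finset V) = {p, q} := by ext u; simp; tauto
    rw [h9] at hc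
    have := card_le_two (a := p) (b := q)
    omega
  · rintro rfl
    have h9 : ({p, q, q} : Finset V) = {p, q} := by ext u; simp
    rw [h9] at hc
    have := card_le_two (a := p) (b := q)
    omega

lemma card_tri {x y z : V} (hxy : x ≠ y) (hxz : x ≠ z) (hyz : y ≠ z) (D : Finset V) :
    (({x, y, z} : Finset V) ∩ D).card =
      (if x ∈ D then 1 else 0) + ((if y ∈ D then 1 else 0) + (if z ∈ D then 1 else 0)) := by
  rw [← filter_mem_eq_inter, card_filter, sum_insert (by simp [hxy, hxz]),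
    sum_insert (by simpa using hyz), sum_singleton]

lemma card_three {x y z : V} (hxy : x ≠ y) (hxz : x ≠ z) (hyz : y ≠ z) :
    ({x, y, z} : Finset V).card = 3 := by
  rw [card_insert_of_notMem (by simp [hxy, hxz]), card_insert_of_notMem (by simpa using hyz),
    card_singleton]

/-- the triples `{x, y, z}` and `{x', y', z'}` with corresponding vertices in the same parts -/
lemma transfer (h3 : ThreeGraph G) {C A B : Finset V} (hs : UniformSplit G C A B)
    {x y z x' y' z' : V} (hx : x ∈ C) (hz : z ∉ C) (hx' : x' ∈ C)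
    (hy : (y ∈ C ∧ y' ∈ C) ∨ (y ∈ A ∧ y' ∈ A) ∨ (y ∈ B ∧ y' ∈ B))
    (hzz : (z ∈ A ∧ z' ∈ A) ∨ (z ∈ B ∧ z' ∈ B))
    (hxy' : x' ≠ y') (hxz' : x' ≠ z') (hyz' : y' ≠ z')
    (h : ({x, y, z} : Finset V) ∈ G) : ({x', y', z'} : Finset V) ∈ G := by
  obtain ⟨hxy, hxz, hyz⟩ := distinct_of_mem h3 h
  obtain ⟨d1, d2, d3, hu⟩ := hs
  rw [Finset.disjoint_left] at d1 d2 d3
  have key : ∀ u u' : V, (u ∈ C ∧ u' ∈ C) ∨ (u ∈ A ∧ u' ∈ A) ∨ (u ∈ B ∧ u' ∈ B) →
      (u ∈ C ∪ A ∪ B ∧ u' ∈ C ∪ A ∪ B) ∧ (u ∈ C ↔ u' ∈ C) ∧ (u ∈ A ↔ u' ∈ A) ∧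
        (u ∈ B ↔ u' ∈ B) := by
    rintro u u' (⟨h1, h2⟩ | ⟨h1, h2⟩ | ⟨h1, h2⟩)
    · have := d1 h1; have := d1 h2; have := d2 h1; have := d2 h2
      simp only [mem_union]
      tauto
    · have := fun h => d1 h h1; have := fun h => d1 h h2; have := d3 h1; have := d3 h2
      simp only [mem_union]
      tauto
    · have := fun h => d2 h h1; have := fun h => d2 h h2
      have := fun h => d3 h h1; have := fun h => d3 h h2
      simp only [mem_union]
      tauto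
  obtain ⟨⟨a1, a2⟩, a3, a4, a5⟩ := key x x' (Or.inl ⟨hx, hx'⟩)
  obtain ⟨⟨b1, b2⟩, b3, b4, b5⟩ := key y y' hy
  obtain ⟨⟨c1, c2⟩, c3, c4, c5⟩ := key z z' (Or.inr hzz)
  refine hu {x, y, z} {x', y', z'} (card_three hxy hxz hyz) (card_three hxy' hxz' hyz') ?_ ?_
    ⟨x, mem_inter.2 ⟨by simp, hx⟩⟩ (fun hh => hz (hh (by simp))) ?_ ?_ ?_ h
  · intro u hu
    simp only [mem_insert, mem_singleton] at hu
    rcases hu with rfl | rfl | rfl
    · exact a1
    · exact b1
    · exact c1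
  · intro u hu
    simp only [mem_insert, mem_singleton] at hu
    rcases hu with rfl | rfl | rfl
    · exact a2
    · exact b2
    · exact c2
  · rw [card_tri hxy hxz hyz, card_tri hxy' hxz' hyz']
    simp only [a3, b3, c3]
  · rw [card_tri hxy hxz hyz, card_tri hxy' hxz' hyz']
    simp only [a4, b4, c4]
  · rw [card_tri hxy hxz hyz, card_tri hxy' hxz' hyz']
    simp only [a5, b5, c5]

/-- there is an edge with vertices in `P`, `Q`, `R` -/
def Typ (G : Finset (Finset V)) (P Q R : Finset V) : Prop :=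
  ∃ p ∈ P, ∃ q ∈ Q, ∃ s ∈ R, ({p, q, s} : Finset V) ∈ G

lemma N_of_not {P Q R : Finset V} (h : ¬ Typ G P Q R) : N G P Q R = 0 :=
  N_eq_zero fun p hp q hq s hs hh => h ⟨p, hp, q, hq, s, hs, hh⟩

section

variable {C A B : Finset V} (h3 : ThreeGraph G) (h4 : TetrahedronFree G)
  (hs : UniformSplit G C A B)

include h3 hs

lemma fullCCA (h : Typ G C C A) {p q s : V} (hp : p ∈ C) (hq : q ∈ C) (hr : s ∈ A)
    (hpq : p ≠ q) : ({p, q, s} : Finset V) ∈ G := by
  obtain ⟨x, hx, y, hy, z, hz, hG⟩ := h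
  have d := Finset.disjoint_left.1 hs.1
  exact transfer h3 hs hx (fun hh => d hh hz) hp (Or.inl ⟨hy, hq⟩) (Or.inl ⟨hz, hr⟩) hpq
    (fun he => d hp (he ▸ hr)) (fun he => d hq (he ▸ hr)) hG

lemma fullCCB (h : Typ G C C B) {p q s : V} (hp : p ∈ C) (hq : q ∈ C) (hr : s ∈ B)
    (hpq : p ≠ q) : ({p, q, s} : Finset V) ∈ G :=
  fullCCA h3 hs.symm h hp hq hr hpq

lemma fullCAA (h : Typ G C A A) {p q s : V} (hp : p ∈ C) (hq : q ∈ A) (hr : s ∈ A)
    (hpq : q ≠ s) : ({p, q, s} : Finset V) ∈ G := by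
  obtain ⟨x, hx, y, hy, z, hz, hG⟩ := h
  have d := Finset.disjoint_left.1 hs.1
  exact transfer h3 hs hx (fun hh => d hh hz) hp (Or.inr (Or.inl ⟨hy, hq⟩)) (Or.inl ⟨hz, hr⟩)
    (fun he => d hp (he ▸ hq)) (fun he => d hp (he ▸ hr)) hpq hG

lemma fullCBB (h : Typ G C B B) {p q s : V} (hp : p ∈ C) (hq : q ∈ B) (hr : s ∈ B)
    (hpq : q ≠ s) : ({p, q, s} : Finset V) ∈ G :=
  fullCAA h3 hs.symm h hp hq hr hpq

lemma fullCAB (h : Typ G C A B) {p q s : V} (hp : p ∈ C) (hq : q ∈ A) (hr : s ∈ B) :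
    ({p, q, s} : Finset V) ∈ G := by
  obtain ⟨x, hx, y, hy, z, hz, hG⟩ := h
  have d1 := Finset.disjoint_left.1 hs.1
  have d2 := Finset.disjoint_left.1 hs.2.1
  have d3 := Finset.disjoint_left.1 hs.2.2.1
  exact transfer h3 hs hx (fun hh => d2 hh hz) hp (Or.inr (Or.inl ⟨hy, hq⟩)) (Or.inr ⟨hz, hr⟩)
    (fun he => d1 hp (he ▸ hq)) (fun he => d2 hp (he ▸ hr)) (fun he => d3 hq (he ▸ hr)) hG

omit hs in
include h4 in
lemma no4 {w x y z : V} (h1 : ({w, x, y} : Finset V) ∈ G) (h2 : ({w, x, z} : Finset V) ∈ G)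
    (h5 : ({w, y, z} : Finset V) ∈ G) (h6 : ({x, y, z} : Finset V) ∈ G) : False := by
  have h7 := four_le h3 h4 w x y z
  rw [ind_eq_one.2 h1, ind_eq_one.2 h2, ind_eq_one.2 h5, ind_eq_one.2 h6] at h7
  norm_num at h7

include h4

lemma conf1 (hX : Typ G C C A) (hY : Typ G C A A) : False := by
  obtain ⟨c, hc, c', hc', z, hz, hG⟩ := id hX
  obtain ⟨w, hw, a, ha, a', ha', hG'⟩ := id hY
  have hcc := (distinct_of_mem h3 hG).1
  have haa := (distinct_of_mem h3 hG').2.2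
  exact no4 h3 h4 (fullCCA h3 hs hX hc hc' ha hcc) (fullCCA h3 hs hX hc hc' ha' hcc)
    (fullCAA h3 hs hY hc ha ha' haa) (fullCAA h3 hs hY hc' ha ha' haa)

lemma conf3 (hX : Typ G C C A) (hX' : Typ G C C B) (hZ : Typ G C A B) : False := by
  obtain ⟨c, hc, c', hc', a, ha, hG⟩ := id hX
  obtain ⟨w, hw, w', hw', b, hb, hG'⟩ := id hX'
  have hcc := (distinct_of_mem h3 hG).1
  exact no4 h3 h4 (fullCCA h3 hs hX hc hc' ha hcc) (fullCCB h3 hs hX' hc hc' hb hcc)
    (fullCAB h3 hs hZ hc ha hb) (fullCAB h3 hs hZ hc' ha hb)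

lemma zeroC (hX : Typ G C C A) : N G C C C = 0 := by
  obtain ⟨c, hc, c', hc', a, ha, hG⟩ := id hX
  refine N_eq_zero fun x hx y hy z hz hh => ?_
  obtain ⟨d1, d2, d3⟩ := distinct_of_mem h3 hh
  exact no4 h3 h4 hh (fullCCA h3 hs hX hx hy ha d1) (fullCCA h3 hs hX hx hz ha d2)
    (fullCCA h3 hs hX hy hz ha d3)

lemma zeroA (hY : Typ G C A A) : N G A A A = 0 := by
  obtain ⟨c, hc, a, ha, a', ha', hG⟩ := id hY
  refine N_eq_zero fun x hx y hy z hz hh => ?_
  obtain ⟨d1, d2, d3⟩ := distinct_of_mem h3 hh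
  exact no4 h3 h4 (fullCAA h3 hs hY hc hx hy d1) (fullCAA h3 hs hY hc hx hz d2)
    (fullCAA h3 hs hY hc hy hz d3) hh

lemma zeroAAB (hY : Typ G C A A) (hZ : Typ G C A B) : N G A A B = 0 := by
  obtain ⟨c, hc, a, ha, a', ha', hG⟩ := id hY
  refine N_eq_zero fun x hx y hy z hz hh => ?_
  obtain ⟨d1, d2, d3⟩ := distinct_of_mem h3 hh
  exact no4 h3 h4 (fullCAA h3 hs hY hc hx hy d1) (fullCAB h3 hs hZ hc hx hz)
    (fullCAB h3 hs hZ hc hy hz) hh

end

lemma N_split {C A B : Finset V} (d1 : Disjoint C A) (d2 : Disjoint C B) (d3 : Disjoint A B) :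
    N G (C ∪ (A ∪ B)) (C ∪ (A ∪ B)) (C ∪ (A ∪ B)) =
      N G C C C + 3 * (N G C C A + N G C C B) + 3 * (N G C A A + 2 * N G C A B + N G C B B) +
        N G (A ∪ B) (A ∪ B) (A ∪ B) := by
  have d : Disjoint C (A ∪ B) := disjoint_union_right.2 ⟨d1, d2⟩
  rw [N_expand d]
  have e3 : ∀ X Y, N G X Y (A ∪ B) = N G X Y A + N G X Y B := by
    intro X Y
    rw [N_comm' X, N_comm X, N_union d3, N_comm A, N_comm B, N_comm' X A, N_comm' X B]
  have e4 : N G C (A ∪ B) (A ∪ B) = N G C A (A ∪ B) + N G C B (A ∪ B) := by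
    rw [N_comm C, N_union d3, N_comm A, N_comm B]
  rw [e4, e3, e3, e3, N_comm' C B A]
  ring

/-- the bound `K |W|³` for the number of ordered triples in `W` -/
def Bd (G : Finset (Finset V)) (K : ℝ) (W : Finset V) : Prop := N G W W W ≤ K * (W.card : ℝ) ^ 3

section

variable {C A B : Finset V} {K : ℝ} (h3 : ThreeGraph G) (h4 : TetrahedronFree G)
  (hs : UniformSplit G C A B) (hK : 5 / 9 ≤ K) (bC : Bd G K C) (bU : Bd G K (A ∪ B))
  (bB : Bd G K B)

lemma card_S (hs : UniformSplit G C A B) :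
    ((C ∪ (A ∪ B)).card : ℝ) = A.card + B.card + C.card := by
  rw [card_union_of_disjoint (disjoint_union_right.2 ⟨hs.1, hs.2.1⟩),
    card_union_of_disjoint hs.2.2.1]
  push_cast
  ring

lemma card_U (hs : UniformSplit G C A B) : ((A ∪ B).card : ℝ) = A.card + B.card := by
  rw [card_union_of_disjoint hs.2.2.1]
  push_cast
  ring

omit [DecidableEq V] in
lemma cube_mono {a b c : ℝ} (ha : 0 ≤ a) (hb : 0 ≤ b) (hc : 0 ≤ c) :
    0 ≤ (a + b + c) ^ 3 - (a + b) ^ 3 - c ^ 3 := by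
  have : (a + b + c) ^ 3 - (a + b) ^ 3 - c ^ 3 = 3 * ((a + b) ^ 2 * c + (a + b) * c ^ 2) := by ring
  rw [this]
  positivity

include h3 h4 hs hK bC bU

/-- no triples with one vertex in `C` and two in `A` or two in `B` -/
lemma case0 (hY1 : ¬ Typ G C A A) (hY2 : ¬ Typ G C B B) : Bd G K (C ∪ (A ∪ B)) := by
  rw [Bd] at bC bU ⊢
  rw [N_split hs.1 hs.2.1 hs.2.2.1, N_of_not hY1, N_of_not hY2, card_S hs]
  rw [card_U hs] at bU
  have hAB := N_le (G := G) C A B
  have hCCA := N_le (G := G) C C A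
  have hCCB := N_le (G := G) C C B
  set a : ℝ := (A.card : ℝ) with haD
  set b : ℝ := (B.card : ℝ) with hbD
  set c : ℝ := (C.card : ℝ) with hcD
  have ha : 0 ≤ a := by positivity
  have hb : 0 ≤ b := by positivity
  have hc : 0 ≤ c := by positivity
  have hm := cube_mono ha hb hc
  have hK' : 0 ≤ K - 5 / 9 := by linarith
  have hc3 : 0 ≤ c ^ 3 := by positivity
  by_cases hX1 : Typ G C C A
  · have e1 := zeroC h3 h4 hs hX1
    by_cases hX2 : Typ G C C B
    · have hZ : ¬ Typ G C A B := fun hZ => conf3 h3 h4 hs hX1 hX2 hZ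
      rw [N_of_not hZ, e1]
      have h1 := i0c ha hb hc
      nlinarith [mul_nonneg hK' hm, mul_nonneg hK' hc3]
    · rw [N_of_not hX2, e1]
      have h1 := i0b ha hb hc
      nlinarith [mul_nonneg hK' hm, mul_nonneg hK' hc3]
  · rw [N_of_not hX1]
    by_cases hX2 : Typ G C C B
    · have e1 := zeroC h3 h4 hs.symm hX2
      rw [e1]
      have h1 := i0b hb ha hc
      nlinarith [mul_nonneg hK' hm, mul_nonneg hK' hc3]
    · rw [N_of_not hX2]
      have h1 := i0a ha hb hc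
      nlinarith [mul_nonneg hK' hm]

include bB

/-- all triples with one vertex in `C` and two in `A`, no other ones with one vertex in `C` -/
lemma case1 (hY1 : Typ G C A A) (hY2 : ¬ Typ G C B B) (hZ : ¬ Typ G C A B) :
    Bd G K (C ∪ (A ∪ B)) := by
  have hX1 : ¬ Typ G C C A := fun hX1 => conf1 h3 h4 hs hX1 hY1
  have eA := zeroA h3 h4 hs hY1
  have eU : N G (A ∪ B) (A ∪ B) (A ∪ B) = 3 * N G A A B + 3 * N G A B B + N G B B B := by
    rw [N_expand hs.2.2.1, eA]; ring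
  have hS := aab_abb h3 h4 A B
  have hCAA := N_le (G := G) C A A
  have hCCB := N_le (G := G) C C B
  rw [Bd] at bC bU bB ⊢
  rw [N_split hs.1 hs.2.1 hs.2.2.1, N_of_not hX1, N_of_not hZ, N_of_not hY2, card_S hs]
  rw [card_U hs] at bU
  set a : ℝ := (A.card : ℝ) with haD
  set b : ℝ := (B.card : ℝ) with hbD
  set c : ℝ := (C.card : ℝ) with hcD
  have ha : 0 ≤ a := by positivity
  have hb : 0 ≤ b := by positivity
  have hc : 0 ≤ c := by positivity
  have hm := cube_mono ha hb hc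
  have hK' : 0 ≤ K - 5 / 9 := by linarith
  have hc3 : 0 ≤ c ^ 3 := by positivity
  have hm2 : 0 ≤ (a + b + c) ^ 3 - b ^ 3 - c ^ 3 := by
    have : (a + b + c) ^ 3 - b ^ 3 - c ^ 3 = ((a + b + c) ^ 3 - (a + b) ^ 3 - c ^ 3) +
      (3 * a ^ 2 * b + 3 * a * b ^ 2 + a ^ 3) := by ring
    rw [this]
    positivity
  rcases le_total a (2 * b) with hab | hab
  · by_cases hX2 : Typ G C C B
    · have e1 := zeroC h3 h4 hs.symm hX2
      rw [e1]
      have h1 := i1xU ha hb hc hab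
      nlinarith [mul_nonneg hK' hm, mul_nonneg hK' hc3]
    · rw [N_of_not hX2]
      have h1 := i1oU ha hb hc hab
      nlinarith [mul_nonneg hK' hm]
  · by_cases hX2 : Typ G C C B
    · have e1 := zeroC h3 h4 hs.symm hX2
      rw [e1, eU]
      have h1 := i1xS ha hb hc hab
      nlinarith [mul_nonneg hK' hm2, mul_nonneg hK' hc3]
    · rw [N_of_not hX2, eU]
      have h1 := i1oS ha hb hc hab
      nlinarith [mul_nonneg hK' hm2]

omit bB in
/-- `A` and `B` independent, `b ≤ a` -/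
lemma case2' (hY1 : Typ G C A A) (hY2 : Typ G C B B) (hZ : ¬ Typ G C A B)
    (hba : B.card ≤ A.card) : Bd G K (C ∪ (A ∪ B)) := by
  have hX1 : ¬ Typ G C C A := fun hX1 => conf1 h3 h4 hs hX1 hY1
  have hX2 : ¬ Typ G C C B := fun hX2 => conf1 h3 h4 hs.symm hX2 hY2
  have eA := zeroA h3 h4 hs hY1
  have eB := zeroA h3 h4 hs.symm hY2
  have eU : N G (A ∪ B) (A ∪ B) (A ∪ B) = 3 * N G A A B + 3 * N G A B B := by
    rw [N_expand hs.2.2.1, eA, eB]; ring
  have hS := aab_abb h3 h4 A B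
  have hCAA := N_le (G := G) C A A
  have hCBB := N_le (G := G) C B B
  rw [Bd] at bC bU ⊢
  rw [N_split hs.1 hs.2.1 hs.2.2.1, N_of_not hX1, N_of_not hZ, N_of_not hX2, card_S hs]
  rw [card_U hs] at bU
  have hba' : (B.card : ℝ) ≤ A.card := by exact_mod_cast hba
  set a : ℝ := (A.card : ℝ) with haD
  set b : ℝ := (B.card : ℝ) with hbD
  set c : ℝ := (C.card : ℝ) with hcD
  have ha : 0 ≤ a := by positivity
  have hb : 0 ≤ b := by positivity
  have hc : 0 ≤ c := by positivity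
  have hm := cube_mono ha hb hc
  have hK' : 0 ≤ K - 5 / 9 := by linarith
  have hm2 : 0 ≤ (a + b + c) ^ 3 - c ^ 3 := by
    have : (a + b + c) ^ 3 - c ^ 3 = ((a + b + c) ^ 3 - (a + b) ^ 3 - c ^ 3) +
      (a + b) ^ 3 := by ring
    rw [this]
    positivity
  rcases le_total (3 * a) (5 * b) with hab | hab
  · have h1 := i2U ha hb hc hab hba'
    nlinarith [mul_nonneg hK' hm]
  · rw [eU]
    have h1 := i2S ha hb hc hab
    nlinarith [mul_nonneg hK' hm2]

omit bB in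
lemma case2 (hY1 : Typ G C A A) (hY2 : Typ G C B B) (hZ : ¬ Typ G C A B) :
    Bd G K (C ∪ (A ∪ B)) := by
  rcases le_total B.card A.card with h | h
  · exact case2' h3 h4 hs hK bC bU hY1 hY2 hZ h
  · rw [union_comm A B] at bU ⊢
    refine case2' h3 h4 hs.symm hK bC bU hY2 hY1 ?_ h
    rintro ⟨p, hp, q, hq, s, hs', hG⟩
    exact hZ ⟨p, hp, s, hs', q, hq, by rw [pair_comm]; exact hG⟩

omit bB in
/-- Turán's case: all triples `CBB` and `CAB`, no triples `CAA` -/
lemma case3 (hY1 : ¬ Typ G C A A) (hY2 : Typ G C B B) (hZ : Typ G C A B) :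
    Bd G K (C ∪ (A ∪ B)) := by
  have hZ' : Typ G C B A := by
    obtain ⟨p, hp, q, hq, s, hs', hG⟩ := hZ
    exact ⟨p, hp, s, hs', q, hq, by rw [pair_comm]; exact hG⟩
  have hX2 : ¬ Typ G C C B := fun hX2 => conf1 h3 h4 hs.symm hX2 hY2
  have eB := zeroA h3 h4 hs.symm hY2
  have eABB : N G A B B = 0 := by
    have := zeroAAB h3 h4 hs.symm hY2 hZ'
    rwa [N_comm', N_comm] at this
  have eU : N G (A ∪ B) (A ∪ B) (A ∪ B) = N G A A A + 3 * N G A A B := by
    rw [N_expand hs.2.2.1, eB, eABB]; ring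
  have hBne : B.Nonempty := by
    obtain ⟨p, hp, q, hq, s, hs', hG⟩ := hZ
    exact ⟨s, hs'⟩
  obtain ⟨hP1, hP2⟩ := aaa_aab h3 h4 (A := A) hBne
  have hCBB := N_le (G := G) C B B
  have hCAB := N_le (G := G) C A B
  have hCCA := N_le (G := G) C C A
  rw [Bd] at bC bU ⊢
  rw [N_split hs.1 hs.2.1 hs.2.2.1, N_of_not hY1, N_of_not hX2, card_S hs]
  rw [card_U hs] at bU
  have hle1 : A.card ≤ B.card ↔ (A.card : ℝ) ≤ B.card := by exact_mod_cast Iff.rfl
  have hle2 : B.card ≤ A.card ↔ (B.card : ℝ) ≤ A.card := by exact_mod_cast Iff.rfl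
  rw [hle1] at hP1
  rw [hle2] at hP2
  clear hle1 hle2
  set a : ℝ := (A.card : ℝ) with haD
  set b : ℝ := (B.card : ℝ) with hbD
  set c : ℝ := (C.card : ℝ) with hcD
  have ha : 0 ≤ a := by positivity
  have hb : 0 ≤ b := by positivity
  have hc : 0 ≤ c := by positivity
  have hm := cube_mono ha hb hc
  have hK' : 0 ≤ K - 5 / 9 := by linarith
  have hc3 : 0 ≤ c ^ 3 := by positivity
  have hm2 : 0 ≤ (a + b + c) ^ 3 - c ^ 3 := by
    have : (a + b + c) ^ 3 - c ^ 3 = ((a + b + c) ^ 3 - (a + b) ^ 3 - c ^ 3) +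
      (a + b) ^ 3 := by ring
    rw [this]
    positivity
  rcases le_total a b with hab | hab
  · have hP := hP1 hab
    by_cases hX1 : Typ G C C A
    · rw [zeroC h3 h4 hs hX1, eU]
      have h1 := i3xhi ha hb hc
      nlinarith [mul_nonneg hK' hm2, mul_nonneg hK' hc3]
    · rw [N_of_not hX1, eU]
      have h1 := i3ohi ha hb hc hab
      nlinarith [mul_nonneg hK' hm2]
  · rcases le_total (5 * a) (11 * b) with hab2 | hab2
    · have hP := hP2 hab
      by_cases hX1 : Typ G C C A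
      · rw [zeroC h3 h4 hs hX1, eU]
        have h1 := i3xmid ha hb hc hab2 hab
        nlinarith [mul_nonneg hK' hm2, mul_nonneg hK' hc3]
      · rw [N_of_not hX1, eU]
        have h1 := i3omid ha hb hc hab2 hab
        nlinarith [mul_nonneg hK' hm2]
    · by_cases hX1 : Typ G C C A
      · rw [zeroC h3 h4 hs hX1]
        have h1 := i3xlow ha hb hc hab2
        nlinarith [mul_nonneg hK' hm, mul_nonneg hK' hc3]
      · rw [N_of_not hX1]
        have h1 := i3olow ha hb hc hab2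
        nlinarith [mul_nonneg hK' hm]

omit bB bU in
/-- all triples with one vertex in `C` -/
lemma case4 (hY1 : Typ G C A A) (hY2 : Typ G C B B) (hZ : Typ G C A B) :
    Bd G K (C ∪ (A ∪ B)) := by
  have hZ' : Typ G C B A := by
    obtain ⟨p, hp, q, hq, s, hs', hG⟩ := hZ
    exact ⟨p, hp, s, hs', q, hq, by rw [pair_comm]; exact hG⟩
  have hX1 : ¬ Typ G C C A := fun hX1 => conf1 h3 h4 hs hX1 hY1
  have hX2 : ¬ Typ G C C B := fun hX2 => conf1 h3 h4 hs.symm hX2 hY2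
  have eA := zeroA h3 h4 hs hY1
  have eB := zeroA h3 h4 hs.symm hY2
  have eAAB := zeroAAB h3 h4 hs hY1 hZ
  have eABB : N G A B B = 0 := by
    have := zeroAAB h3 h4 hs.symm hY2 hZ'
    rwa [N_comm', N_comm] at this
  have eU : N G (A ∪ B) (A ∪ B) (A ∪ B) = 0 := by
    rw [N_expand hs.2.2.1, eA, eB, eAAB, eABB]; ring
  have hCAA := N_le (G := G) C A A
  have hCBB := N_le (G := G) C B B
  have hCAB := N_le (G := G) C A B
  rw [Bd] at bC ⊢
  rw [N_split hs.1 hs.2.1 hs.2.2.1, N_of_not hX1, N_of_not hX2, card_S hs, eU]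
  set a : ℝ := (A.card : ℝ) with haD
  set b : ℝ := (B.card : ℝ) with hbD
  set c : ℝ := (C.card : ℝ) with hcD
  have ha : 0 ≤ a := by positivity
  have hb : 0 ≤ b := by positivity
  have hc : 0 ≤ c := by positivity
  have hm := cube_mono ha hb hc
  have hK' : 0 ≤ K - 5 / 9 := by linarith
  have hm2 : 0 ≤ (a + b + c) ^ 3 - c ^ 3 := by
    have : (a + b + c) ^ 3 - c ^ 3 = ((a + b + c) ^ 3 - (a + b) ^ 3 - c ^ 3) +
      (a + b) ^ 3 := by ring
    rw [this]
    positivity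
  have h1 := i4 ha hb hc
  nlinarith [mul_nonneg hK' hm2]

end

/-- **A minimal counterexample has no uniform split.** -/
theorem bd_split (h3 : ThreeGraph G) (h4 : TetrahedronFree G) {C A B : Finset V} {K : ℝ}
    (hK : 5 / 9 ≤ K) (hs : UniformSplit G C A B) (bC : Bd G K C) (bU : Bd G K (A ∪ B))
    (bA : Bd G K A) (bB : Bd G K B) : Bd G K (C ∪ (A ∪ B)) := by
  have flip : Typ G C A B ↔ Typ G C B A := by
    constructor
    · rintro ⟨p, hp, q, hq, s, hs', hG⟩
      exact ⟨p, hp, s, hs', q, hq, by rw [pair_comm]; exact hG⟩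
    · rintro ⟨p, hp, q, hq, s, hs', hG⟩
      exact ⟨p, hp, s, hs', q, hq, by rw [pair_comm]; exact hG⟩
  by_cases hY1 : Typ G C A A
  · by_cases hY2 : Typ G C B B
    · by_cases hZ : Typ G C A B
      · exact case4 h3 h4 hs hK bC hY1 hY2 hZ
      · exact case2 h3 h4 hs hK bC bU hY1 hY2 hZ
    · by_cases hZ : Typ G C A B
      · rw [union_comm A B] at bU ⊢
        exact case3 h3 h4 hs.symm hK bC bU hY2 hY1 (flip.1 hZ)
      · exact case1 h3 h4 hs hK bC bU bB hY1 hY2 hZ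
  · by_cases hY2 : Typ G C B B
    · by_cases hZ : Typ G C A B
      · exact case3 h3 h4 hs hK bC bU hY1 hY2 hZ
      · rw [union_comm A B] at bU ⊢
        exact case1 h3 h4 hs.symm hK bC bU bA hY2 hY1 (fun h => hZ (flip.2 h))
    · exact case0 h3 h4 hs hK bC bU hY1 hY2

end Pool.Agent.T2H11.KS
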