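import Pool.Agent.T2H11.KS.Tww

set_option autoImplicit false

/-!
# Turán's construction has twin-width at most one
-/

open Finset

namespace Pool.Agent.T2H11.KS

open Pool.Agent.T2H11.TW (IsPart isPart_zero isPart_merge card_merge seq_part)
open Pool.Agent.T2H11.HT (SameProfile Clear TwwLe RD Con rd_of con_small twwLe_iff_con card_sing
  twwLe_empty)

section

variable {V κ : Type} [DecidableEq V]

lemma class_of_profile {m : ℕ} {g : V → Fin m} {P : Finset (Finset V)} (hP : IsPart P)
    (hf : ∀ A ∈ P, ∃ i, ∀ v ∈ A, g v = i) {e f : Finset V} (h : SameProfile P e f) (i : Fin m) :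
    (e.filter (fun v => g v = i)).card = (f.filter (fun v => g v = i)).card := by
  have key : ∀ e : Finset V, (e.filter (fun v => g v = i)).card =
      ∑ A ∈ P.filter (fun A => ∀ z ∈ A, g z = i), (e ∩ A).card := by
    intro e
    rw [← card_biUnion]
    · congr 1
      ext z
      rw [mem_filter, mem_biUnion]
      constructor
      · rintro ⟨hz, hzx⟩
        obtain ⟨A, hA, hzA⟩ := hP.cover z
        obtain ⟨y, hy⟩ := hf A hA
        refine ⟨A, mem_filter.2 ⟨hA, fun u hu => ?_⟩, mem_inter.2 ⟨hz, hzA⟩⟩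
        rw [hy u hu, ← hy z hzA, hzx]
      · rintro ⟨A, hA, hz⟩
        rw [mem_filter] at hA
        rw [mem_inter] at hz
        exact ⟨hz.1, hA.2 z hz.2⟩
    · intro A hA B hB hAB
      have hA' := (mem_filter.1 (Finset.mem_coe.1 hA)).1
      have hB' := (mem_filter.1 (Finset.mem_coe.1 hB)).1
      exact (hP.disj A hA' B hB' hAB).mono inter_subset_right inter_subset_right
  rw [key e, key f]
  exact sum_congr rfl fun A hA => h A (mem_filter.1 hA).1

/-- a colouring which depends only on the numbers of elements in `m ≤ t + 2` classes -/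
theorem tww_classes [Fintype V] {r t m : ℕ} (g : V → Fin m) {c : Finset V → κ} (hm : m ≤ t + 2)
    (hc : ∀ e f : Finset V, e.card = r → f.card = r →
      (∀ i, (e.filter (fun v => g v = i)).card = (f.filter (fun v => g v = i)).card) →
      c e = c f) : TwwLe r c t := by
  rcases isEmpty_or_nonempty V with hV | hV
  · exact twwLe_empty
  have rd : ∀ Q : Finset (Finset V), IsPart Q → (∀ A ∈ Q, ∃ i, ∀ v ∈ A, g v = i) →
      RD r c t Q := by
    intro Q hQ hf
    refine rd_of fun A hA F hF => ?_
    have h1 : F = ∅ := by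
      rw [eq_empty_iff_forall_notMem]
      intro B hB
      exact (hF B hB).2.2 fun e f he hf' _ _ hp => hc e f he hf' (class_of_profile hQ hf hp)
    rw [h1]
    simp
  have main : ∀ (s : ℕ) (Q : Finset (Finset V)), IsPart Q →
      (∀ A ∈ Q, ∃ i, ∀ v ∈ A, g v = i) → Q.card = s + 1 → Con r c t s Q := by
    intro s
    induction s with
    | zero => intro Q hQ hf _; exact Con.zero (rd Q hQ hf)
    | succ s ih =>
      intro Q hQ hf hcard
      by_cases hsm : Q.card ≤ t + 2
      · exact con_small (s + 1) Q hQ hcard hsm (rd Q hQ hf)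
      · have : Nonempty (Fin m) := ⟨g (Classical.arbitrary V)⟩
        choose! cl hcl using hf
        obtain ⟨A, hA, B, hB, hAB, he⟩ := exists_ne_map_eq_of_card_lt_of_maps_to
          (s := Q) (t := (univ : Finset (Fin m))) (f := cl)
          (by rw [card_univ, Fintype.card_fin]; omega) (fun _ _ => mem_coe.2 (mem_univ _))
        have hcm := card_merge hQ hA hB hAB
        refine Con.step (rd Q hQ (fun A hA => ⟨cl A, hcl A hA⟩)) hA hB hAB
          (ih _ (isPart_merge hQ hA hB) ?_ (by omega))
        intro D hD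
        rw [mem_insert] at hD
        rcases hD with rfl | hD
        · refine ⟨cl A, fun v hv => ?_⟩
          rw [mem_union] at hv
          rcases hv with hv | hv
          · exact hcl A hA v hv
          · rw [he]; exact hcl B hB v hv
        · simp only [mem_erase] at hD
          exact ⟨cl D, hcl D hD.2.2⟩
  rw [twwLe_iff_con]
  refine main _ _ isPart_zero ?_ ?_
  · intro A hA
    obtain ⟨v, -, rfl⟩ := mem_image.1 hA
    exact ⟨g v, fun u hu => by rw [mem_singleton] at hu; rw [hu]⟩
  · have hn : 0 < Fintype.card V := Fintype.card_pos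
    rw [card_sing]
    omega

end

/-- the profiles of the edges: `(1,1,1)`, `(2,1,0)`, `(0,2,1)`, `(1,0,2)` -/
def rule (n : Fin 3 → ℕ) : Prop :=
  (n 0 = 1 ∧ n 1 = 1 ∧ n 2 = 1) ∨ (n 0 = 2 ∧ n 1 = 1) ∨ (n 1 = 2 ∧ n 2 = 1) ∨ (n 2 = 2 ∧ n 0 = 1)

instance (n : Fin 3 → ℕ) : Decidable (rule n) := by unfold rule; infer_instance

/-- Turán's construction for the division `g` of the vertices into three classes -/
def turan {V : Type} [Fintype V] [DecidableEq V] (g : V → Fin 3) : Finset (Finset V) :=
  ((univ : Finset V).powersetCard 3).filter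
    (fun e => rule (fun i => (e.filter (fun v => g v = i)).card))

section

variable {V : Type} [Fintype V] [DecidableEq V] {g : V → Fin 3}

lemma mem_turan {e : Finset V} : e ∈ turan g ↔
    e.card = 3 ∧ rule (fun i => (e.filter (fun v => g v = i)).card) := by
  rw [turan, mem_filter, mem_powersetCard]
  simp

lemma turan_three : ThreeGraph (turan g) := fun e he => (mem_turan.1 he).1

lemma turan_tww : TwwLe 3 (fun e => e ∈ turan g) 1 := by
  refine tww_classes g (by norm_num) fun e f he hf h => ?_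
  apply propext
  rw [mem_turan, mem_turan]
  simp only [he, hf, h]

/-- the classes of the vertices of an edge -/
def Rl (p q r : Fin 3) : Prop := rule (fun i => (if p = i then 1 else 0) +
  ((if q = i then 1 else 0) + (if r = i then 1 else 0)))

instance (p q r : Fin 3) : Decidable (Rl p q r) := by unfold Rl; infer_instance

lemma tri_mem {x y z : V} (hxy : x ≠ y) (hxz : x ≠ z) (hyz : y ≠ z) :
    ({x, y, z} : Finset V) ∈ turan g ↔ Rl (g x) (g y) (g z) := by
  rw [mem_turan, Rl]
  have h1 : ∀ i, (({x, y, z} : Finset V).filter (fun v => g v = i)).card =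
      (if g x = i then 1 else 0) + ((if g y = i then 1 else 0) + (if g z = i then 1 else 0)) := by
    intro i
    rw [card_filter, sum_insert (by simp [hxy, hxz]), sum_insert (by simpa using hyz),
      sum_singleton]
  simp only [h1, card_three hxy hxz hyz, true_and]

lemma no_four : ∀ p q r s : Fin 3, ¬ (Rl p q r ∧ Rl p q s ∧ Rl p r s ∧ Rl q r s) := by decide

lemma turan_free : TetrahedronFree (turan g) := by
  intro S hS
  obtain ⟨w, T, hwT, rfl, hT⟩ := card_eq_succ.1 hS
  obtain ⟨x, y, z, hxy, hxz, hyz, rfl⟩ := card_eq_three.1 hT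
  simp only [mem_insert, mem_singleton, not_or] at hwT
  obtain ⟨hwx, hwy, hwz⟩ := hwT
  by_contra hcon
  push Not at hcon
  refine no_four (g w) (g x) (g y) (g z) ⟨?_, ?_, ?_, ?_⟩
  · rw [← tri_mem hwx hwy hxy]
    refine hcon _ ?_ (card_three hwx hwy hxy)
    intro u hu; simp only [mem_insert, mem_singleton] at hu ⊢; tauto
  · rw [← tri_mem hwx hwz hxz]
    refine hcon _ ?_ (card_three hwx hwz hxz)
    intro u hu; simp only [mem_insert, mem_singleton] at hu ⊢; tauto
  · rw [← tri_mem hwy hwz hyz]
    refine hcon _ ?_ (card_three hwy hwz hyz)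
    intro u hu; simp only [mem_insert, mem_singleton] at hu ⊢; tauto
  · rw [← tri_mem hxy hxz hyz]
    refine hcon _ ?_ (card_three hxy hxz hyz)
    intro u hu; simp only [mem_insert, mem_singleton] at hu ⊢; tauto

lemma N_two {G : Finset (Finset V)} {P R : Finset V} (h3 : ThreeGraph G)
    (h : ∀ p ∈ P, ∀ q ∈ P, ∀ s ∈ R, p ≠ q → ({p, q, s} : Finset V) ∈ G) :
    N G P P R = P.card * ((P.card : ℝ) - 1) * R.card := by
  have h1 : ∀ p ∈ P, ∑ q ∈ P, ∑ s ∈ R, ind G p q s = ((P.card : ℝ) - 1) * R.card := by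
    intro p hp
    rw [← add_sum_erase _ _ hp]
    have h2 : ∑ s ∈ R, ind G p p s = 0 := by
      refine sum_eq_zero fun s _ => ?_
      rw [ind, if_neg]
      intro hh
      exact (distinct_of_mem h3 hh).1 rfl
    have h4 : ∑ q ∈ P.erase p, ∑ s ∈ R, ind G p q s = ∑ q ∈ P.erase p, ∑ s ∈ R, (1 : ℝ) := by
      refine sum_congr rfl fun q hq => sum_congr rfl fun s hs => ?_
      rw [mem_erase] at hq
      rw [ind, if_pos (h p hp q hq.2 s hs (Ne.symm hq.1))]
    rw [h2, h4, zero_add]
    simp only [sum_const, nsmul_eq_mul, mul_one]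
    rw [card_erase_of_mem hp, Nat.cast_sub (card_pos.2 ⟨p, hp⟩), Nat.cast_one]
  rw [N, sum_congr rfl h1, sum_const, nsmul_eq_mul]
  ring

lemma N_all {G : Finset (Finset V)} {P Q R : Finset V}
    (h : ∀ p ∈ P, ∀ q ∈ Q, ∀ s ∈ R, ({p, q, s} : Finset V) ∈ G) :
    N G P Q R = P.card * Q.card * R.card := by
  have h1 : N G P Q R = ∑ p ∈ P, ∑ q ∈ Q, ∑ s ∈ R, (1 : ℝ) :=
    sum_congr rfl fun p hp => sum_congr rfl fun q hq => sum_congr rfl fun s hs => by
      rw [ind, if_pos (h p hp q hq s hs)]
  rw [h1]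
  simp only [sum_const, nsmul_eq_mul, mul_one]
  ring

/-- the number of edges of Turán's construction with three classes of size `k` -/
theorem turan_card {k : ℕ} (hg : ∀ i, (univ.filter (fun v => g v = i)).card = k) :
    2 * (turan g).card + 3 * k ^ 2 = 5 * k ^ 3 := by
  set V0 : Finset V := univ.filter (fun v => g v = 0) with hV0
  set V1 : Finset V := univ.filter (fun v => g v = 1) with hV1
  set V2 : Finset V := univ.filter (fun v => g v = 2) with hV2
  have m0 : ∀ v, v ∈ V0 ↔ g v = 0 := fun v => by simp [hV0]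
  have m1 : ∀ v, v ∈ V1 ↔ g v = 1 := fun v => by simp [hV1]
  have m2 : ∀ v, v ∈ V2 ↔ g v = 2 := fun v => by simp [hV2]
  have d01 : Disjoint V0 V1 := by
    rw [Finset.disjoint_left]; intro v h h'
    rw [m0] at h; rw [m1, h] at h'; exact absurd h' (by decide)
  have d02 : Disjoint V0 V2 := by
    rw [Finset.disjoint_left]; intro v h h'
    rw [m0] at h; rw [m2, h] at h'; exact absurd h' (by decide)
  have d12 : Disjoint V1 V2 := by
    rw [Finset.disjoint_left]; intro v h h'
    rw [m1] at h; rw [m2, h] at h'; exact absurd h' (by decide)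
  have hu : V0 ∪ (V1 ∪ V2) = univ := by
    ext v
    simp only [mem_union, m0, m1, m2, mem_univ, iff_true]
    have : ∀ i : Fin 3, i = 0 ∨ i = 1 ∨ i = 2 := by decide
    exact this (g v)
  -- a generic criterion
  have zero : ∀ (P Q R : Finset V) (i j l : Fin 3), (∀ v ∈ P, g v = i) → (∀ v ∈ Q, g v = j) →
      (∀ v ∈ R, g v = l) → ¬ Rl i j l → N (turan g) P Q R = 0 := by
    intro P Q R i j l hP hQ hR hn
    refine N_eq_zero fun x hx y hy z hz hh => ?_
    obtain ⟨a1, a2, a3⟩ := distinct_of_mem turan_three hh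
    rw [tri_mem a1 a2 a3, hP x hx, hQ y hy, hR z hz] at hh
    exact hn hh
  have two : ∀ (P R : Finset V) (i l : Fin 3), (∀ v ∈ P, g v = i) → (∀ v ∈ R, g v = l) →
      Disjoint P R → Rl i i l → N (turan g) P P R = P.card * ((P.card : ℝ) - 1) * R.card := by
    intro P R i l hP hR hd hn
    refine N_two turan_three fun p hp q hq s hs hpq => ?_
    have b1 : p ≠ s := fun he => Finset.disjoint_left.1 hd hp (he ▸ hs)
    have b2 : q ≠ s := fun he => Finset.disjoint_left.1 hd hq (he ▸ hs)
    rw [tri_mem hpq b1 b2, hP p hp, hP q hq, hR s hs]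
    exact hn
  have g0 : ∀ v ∈ V0, g v = 0 := fun v hv => (m0 v).1 hv
  have g1 : ∀ v ∈ V1, g v = 1 := fun v hv => (m1 v).1 hv
  have g2 : ∀ v ∈ V2, g v = 2 := fun v hv => (m2 v).1 hv
  have c0 : (V0.card : ℝ) = k := by rw [hV0, hg]
  have c1 : (V1.card : ℝ) = k := by rw [hV1, hg]
  have c2 : (V2.card : ℝ) = k := by rw [hV2, hg]
  have e000 := zero V0 V0 V0 0 0 0 g0 g0 g0 (by decide)
  have e111 := zero V1 V1 V1 1 1 1 g1 g1 g1 (by decide)
  have e222 := zero V2 V2 V2 2 2 2 g2 g2 g2 (by decide)
  have e002 := zero V0 V0 V2 0 0 2 g0 g0 g2 (by decide)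
  have e011 := zero V0 V1 V1 0 1 1 g0 g1 g1 (by decide)
  have e122 := zero V1 V2 V2 1 2 2 g1 g2 g2 (by decide)
  have e001 := two V0 V1 0 1 g0 g1 d01 (by decide)
  have e112 := two V1 V2 1 2 g1 g2 d12 (by decide)
  have e220 := two V2 V0 2 0 g2 g0 d02.symm (by decide)
  have e012 : N (turan g) V0 V1 V2 = V0.card * V1.card * V2.card := by
    refine N_all fun p hp q hq s hs => ?_
    have b1 : p ≠ q := fun he => Finset.disjoint_left.1 d01 hp (he ▸ hq)
    have b2 : p ≠ s := fun he => Finset.disjoint_left.1 d02 hp (he ▸ hs)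
    have b3 : q ≠ s := fun he => Finset.disjoint_left.1 d12 hq (he ▸ hs)
    rw [tri_mem b1 b2 b3, g0 p hp, g1 q hq, g2 s hs]
    decide
  have e022 : N (turan g) V0 V2 V2 = N (turan g) V2 V2 V0 := by
    rw [N_comm, N_comm']
  have tot := N_split (G := turan g) d01 d02 d12
  rw [N_expand d12, e000, e111, e222, e002, e011, e122, e001, e112, e012, e022, e220, c0, c1, c2,
    hu, N_eq turan_three] at tot
  have h2 : (turan g).filter (· ⊆ univ) = turan g := filter_true_of_mem fun e _ => subset_univ e
  rw [h2] at tot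
  have h5 : (2 * (turan g).card + 3 * k ^ 2 : ℝ) = 5 * k ^ 3 := by linarith
  exact_mod_cast h5

end

/-- Turán's construction on `3 k` vertices -/
theorem exists_turan (k : ℕ) : ∃ G : Finset (Finset (Fin (3 * k))), ThreeGraph G ∧
    TetrahedronFree G ∧ TwwLe 3 (fun e => e ∈ G) 1 ∧ 2 * G.card + 3 * k ^ 2 = 5 * k ^ 3 := by
  refine ⟨turan (fun v => (finProdFinEquiv.symm v).1), turan_three, turan_free, turan_tww,
    turan_card fun i => ?_⟩
  have h1 : univ.filter (fun v : Fin (3 * k) => (finProdFinEquiv.symm v).1 = i) =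
      (univ : Finset (Fin k)).image (fun j => finProdFinEquiv (i, j)) := by
    ext v
    simp only [mem_filter, mem_univ, true_and, mem_image]
    constructor
    · intro h
      refine ⟨(finProdFinEquiv.symm v).2, ?_⟩
      rw [← h]
      exact finProdFinEquiv.apply_symm_apply v
    · rintro ⟨j, rfl⟩
      simp
  rw [h1, card_image_of_injective, card_univ, Fintype.card_fin]
  intro a b hab
  have := finProdFinEquiv.injective hab
  simpa using this

end Pool.Agent.T2H11.KS
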