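import Pool.Agent.T2H11.KS.Closure
import Pool.Agent.T2H11.HT.Seq

set_option autoImplicit false

/-!
# 3-graphs of twin-width at most one are built by uniform splits
-/

open Finset

namespace Pool.Agent.T2H11.KS

open Pool.Agent.T2H11.TW (IsPart isPart_zero isPart_merge card_merge seq_part)
open Pool.Agent.T2H11.HT (SameProfile Clear TwwLe RD)

variable {V : Type} [DecidableEq V] {G : Finset (Finset V)} {Q : Finset (Finset V)}

/-- clearness for 3-graphs -/
abbrev Cl (G : Finset (Finset V)) (Q : Finset (Finset V)) (A B : Finset V) : Prop :=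
  Clear 3 (fun e => e ∈ G) Q A B

lemma Cl.symm {A B : Finset V} (h : Cl G Q A B) : Cl G Q B A :=
  fun e f he hf h1 h2 hp => h e f he hf h2 h1 hp

/-- a part clear to two others gives a uniform split -/
lemma split_of_clear (hQ : IsPart Q) {C A B : Finset V} (hC : C ∈ Q) (hA : A ∈ Q) (hB : B ∈ Q)
    (hCA : C ≠ A) (hCB : C ≠ B) (hAB : A ≠ B) (h1 : Cl G Q C A) (h2 : Cl G Q C B) :
    UniformSplit G C A B := by
  refine ⟨hQ.disj C hC A hA hCA, hQ.disj C hC B hB hCB, hQ.disj A hA B hB hAB, ?_⟩
  intro e f he hf heS hfS heC hnC c1 c2 c3 heG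
  have hp : SameProfile Q e f := by
    intro D hD
    by_cases hDC : D = C
    · rw [hDC]; exact c1
    by_cases hDA : D = A
    · rw [hDA]; exact c2
    by_cases hDB : D = B
    · rw [hDB]; exact c3
    have key : ∀ e : Finset V, e ⊆ C ∪ A ∪ B → e ∩ D = ∅ := by
      intro e he
      rw [eq_empty_iff_forall_notMem]
      intro x hx
      rw [mem_inter] at hx
      have h := he hx.1
      simp only [mem_union] at h
      rcases h with (h | h) | h
      · exact Finset.disjoint_left.1 (hQ.disj D hD C hC hDC) hx.2 h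
      · exact Finset.disjoint_left.1 (hQ.disj D hD A hA hDA) hx.2 h
      · exact Finset.disjoint_left.1 (hQ.disj D hD B hB hDB) hx.2 h
    rw [key e heS, key f hfS]
  obtain ⟨x, hx, hxC⟩ : ∃ x ∈ e, x ∉ C := by
    by_contra hh
    push Not at hh
    exact hnC hh
  have hxS := heS hx
  simp only [mem_union] at hxS
  rcases hxS with (h | h) | h
  · exact absurd h hxC
  · have := h1 e f he hf heC ⟨x, mem_inter.2 ⟨hx, h⟩⟩ hp
    exact this.mp heG
  · have := h2 e f he hf heC ⟨x, mem_inter.2 ⟨hx, h⟩⟩ hp
    exact this.mp heG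

lemma split_of_clear_two (hQ : IsPart Q) {C A : Finset V} (hC : C ∈ Q) (hA : A ∈ Q)
    (hCA : C ≠ A) (h1 : Cl G Q C A) : UniformSplit G C A ∅ := by
  refine ⟨hQ.disj C hC A hA hCA, disjoint_empty_right _, disjoint_empty_right _, ?_⟩
  intro e f he hf heS hfS heC hnC c1 c2 c3 heG
  rw [union_empty] at heS hfS
  have hp : SameProfile Q e f := by
    intro D hD
    by_cases hDC : D = C
    · rw [hDC]; exact c1
    by_cases hDA : D = A
    · rw [hDA]; exact c2
    have key : ∀ e : Finset V, e ⊆ C ∪ A → e ∩ D = ∅ := by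
      intro e he
      rw [eq_empty_iff_forall_notMem]
      intro x hx
      rw [mem_inter] at hx
      have h := he hx.1
      simp only [mem_union] at h
      rcases h with h | h
      · exact Finset.disjoint_left.1 (hQ.disj D hD C hC hDC) hx.2 h
      · exact Finset.disjoint_left.1 (hQ.disj D hD A hA hDA) hx.2 h
    rw [key e heS, key f hfS]
  obtain ⟨x, hx, hxC⟩ : ∃ x ∈ e, x ∉ C := by
    by_contra hh
    push Not at hh
    exact hnC hh
  have hxS := heS hx
  simp only [mem_union] at hxS
  rcases hxS with h | h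
  · exact absurd h hxC
  · have := h1 e f he hf heC ⟨x, mem_inter.2 ⟨hx, h⟩⟩ hp
    exact this.mp heG

/-- red degree at most one -/
def RDo (G : Finset (Finset V)) (Q : Finset (Finset V)) : Prop :=
  ∀ A ∈ Q, ∀ B ∈ Q, ∀ B' ∈ Q, B ≠ A → B' ≠ A → ¬ Cl G Q A B → ¬ Cl G Q A B' → B = B'

lemma rdo_of {Q : Finset (Finset V)} (h : RD 3 (fun e => e ∈ G) 1 Q) : RDo G Q := by
  intro A hA B hB B' hB' hBA hBA' h1 h2
  by_contra hne
  have h3 := h.le hA {B, B'} (by
    intro D hD
    rw [mem_insert, mem_singleton] at hD
    rcases hD with rfl | rfl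
    · exact ⟨hB, hBA, h1⟩
    · exact ⟨hB', hBA', h2⟩)
  rw [card_pair hne] at h3
  omega

/-- the blocks of a partition are reducible -/
def Good (G : Finset (Finset V)) (base : Finset V → Prop) (Q : Finset (Finset V)) : Prop :=
  (∀ A ∈ Q, (∀ B ∈ Q, B ≠ A → Cl G Q A B) → Reducible G base A) ∧
  (∀ A ∈ Q, ∀ B ∈ Q, A ≠ B → ¬ Cl G Q A B → Reducible G base (A ∪ B))

section

variable {X Y : Finset V} (hQ : IsPart Q) (hX : X ∈ Q) (hY : Y ∈ Q) (hXY : X ≠ Y)

lemma mem_merge {D : Finset V} : D ∈ insert (X ∪ Y) ((Q.erase X).erase Y) ↔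
    D = X ∪ Y ∨ (D ≠ Y ∧ D ≠ X ∧ D ∈ Q) := by
  simp only [mem_insert, mem_erase]

include hQ hX hY hXY

lemma profile_coarse {e f : Finset V} (h : SameProfile Q e f) :
    SameProfile (insert (X ∪ Y) ((Q.erase X).erase Y)) e f := by
  intro D hD
  rcases mem_merge.1 hD with rfl | ⟨-, -, hD⟩
  · have key : ∀ e : Finset V, (e ∩ (X ∪ Y)).card = (e ∩ X).card + (e ∩ Y).card := by
      intro e
      rw [inter_union_distrib_left, card_union_of_disjoint]
      exact (hQ.disj X hX Y hY hXY).mono inter_subset_right inter_subset_right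
    rw [key, key, h X hX, h Y hY]
  · exact h D hD

lemma clear_fine {A B : Finset V}
    (h : Cl G (insert (X ∪ Y) ((Q.erase X).erase Y)) A B) : Cl G Q A B :=
  fun e f he hf h1 h2 hp => h e f he hf h1 h2 (profile_coarse hQ hX hY hXY hp)

lemma clear_fineX {B : Finset V}
    (h : Cl G (insert (X ∪ Y) ((Q.erase X).erase Y)) (X ∪ Y) B) : Cl G Q X B :=
  fun e f he hf h1 h2 hp => h e f he hf (h1.mono (inter_subset_inter_left subset_union_left)) h2
    (profile_coarse hQ hX hY hXY hp)

lemma clear_fineY {B : Finset V}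
    (h : Cl G (insert (X ∪ Y) ((Q.erase X).erase Y)) (X ∪ Y) B) : Cl G Q Y B :=
  fun e f he hf h1 h2 hp => h e f he hf (h1.mono (inter_subset_inter_left subset_union_right)) h2
    (profile_coarse hQ hX hY hXY hp)

/-- a newly red pair away from the merged part gives two red neighbours of the merged part -/
lemma new_red {A B : Finset V} (hA : A ∈ Q) (hB : B ∈ Q) (hAX : A ≠ X) (hAY : A ≠ Y)
    (hBX : B ≠ X) (hBY : B ≠ Y) (hAB : A ≠ B) (h : Cl G Q A B)
    (h' : ¬ Cl G (insert (X ∪ Y) ((Q.erase X).erase Y)) A B) :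
    ¬ Cl G (insert (X ∪ Y) ((Q.erase X).erase Y)) (X ∪ Y) A ∧
    ¬ Cl G (insert (X ∪ Y) ((Q.erase X).erase Y)) (X ∪ Y) B := by
  have h2 : ∃ e f : Finset V, e.card = 3 ∧ f.card = 3 ∧ (e ∩ A).Nonempty ∧ (e ∩ B).Nonempty ∧
      SameProfile (insert (X ∪ Y) ((Q.erase X).erase Y)) e f ∧ ¬ ((e ∈ G) = (f ∈ G)) := by
    by_contra hh
    push Not at hh
    exact h' fun e f he hf h1 h2 hp => hh e f he hf h1 h2 hp
  obtain ⟨e, f, he, hf, heA, heB, hp, hne⟩ := h2
  have hnp : ¬ SameProfile Q e f := fun hp' => hne (h e f he hf heA heB hp')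
  -- `e` meets `X ∪ Y`
  have hZ : (e ∩ (X ∪ Y)).Nonempty := by
    by_contra hh
    rw [not_nonempty_iff_eq_empty] at hh
    have h5 := hp (X ∪ Y) (mem_merge.2 (Or.inl rfl))
    rw [hh, card_empty] at h5
    have h6 : f ∩ (X ∪ Y) = ∅ := card_eq_zero.1 h5.symm
    apply hnp
    intro D hD
    by_cases hDX : D = X
    · subst hDX
      have e1 : e ∩ D = ∅ := subset_empty.1 (by
        rw [← hh]; exact inter_subset_inter_left subset_union_left)
      have e2 : f ∩ D = ∅ := subset_empty.1 (by
        rw [← h6]; exact inter_subset_inter_left subset_union_left)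
      rw [e1, e2]
    by_cases hDY : D = Y
    · subst hDY
      have e1 : e ∩ D = ∅ := subset_empty.1 (by
        rw [← hh]; exact inter_subset_inter_left subset_union_right)
      have e2 : f ∩ D = ∅ := subset_empty.1 (by
        rw [← h6]; exact inter_subset_inter_left subset_union_right)
      rw [e1, e2]
    exact hp D (mem_merge.2 (Or.inr ⟨hDY, hDX, hD⟩))
  exact ⟨fun hc => hne (hc e f he hf hZ heA hp), fun hc => hne (hc e f he hf hZ heB hp)⟩

lemma good_step {base : Finset V → Prop} (hr : RDo G Q)
    (hr' : RDo G (insert (X ∪ Y) ((Q.erase X).erase Y))) (hg : Good G base Q) :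
    Good G base (insert (X ∪ Y) ((Q.erase X).erase Y)) := by
  obtain ⟨g1, g2⟩ := hg
  set Q' := insert (X ∪ Y) ((Q.erase X).erase Y) with hQ'
  have hZ : X ∪ Y ∈ Q' := by rw [hQ']; exact mem_merge.2 (Or.inl rfl)
  have hmem : ∀ D ∈ Q, D ≠ X → D ≠ Y → D ∈ Q' ∧ D ≠ X ∪ Y := by
    intro D hD h1 h2
    refine ⟨by rw [hQ']; exact mem_merge.2 (Or.inr ⟨h2, h1, hD⟩), ?_⟩
    rintro rfl
    obtain ⟨x, hx⟩ := hQ.ne X hX
    exact Finset.disjoint_left.1 (hQ.disj X hX _ hD (Ne.symm h1)) hx (mem_union_left _ hx)
  -- the case of the merged part and a red neighbour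
  have keyZ : ∀ B ∈ Q', B ≠ X ∪ Y → ¬ Cl G Q' (X ∪ Y) B → Reducible G base (X ∪ Y ∪ B) := by
    intro B hB hBZ hred
    obtain ⟨hBY, hBX, hBQ⟩ : B ≠ Y ∧ B ≠ X ∧ B ∈ Q := by
      rw [hQ'] at hB
      rcases mem_merge.1 hB with h | h
      · exact absurd h hBZ
      · exact h
    have cD : ∀ D ∈ Q, D ≠ X → D ≠ Y → D ≠ B → Cl G Q X D ∧ Cl G Q Y D ∧ Cl G Q B D := by
      intro D hD h1 h2 h5
      obtain ⟨hD', hDZ⟩ := hmem D hD h1 h2
      have c1 : Cl G Q' (X ∪ Y) D := by
        by_contra hc
        exact h5 (hr' _ hZ _ hD' _ hB hDZ hBZ hc hred)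
      have c2 : Cl G Q' B D := by
        by_contra hc
        exact hDZ (hr' _ hB _ hD' _ hZ h5 (Ne.symm hBZ) hc (fun hh => hred hh.symm))
      exact ⟨clear_fineX hQ hX hY hXY c1, clear_fineY hQ hX hY hXY c1,
        clear_fine hQ hX hY hXY c2⟩
    by_cases r1 : Cl G Q X Y
    · by_cases r2 : Cl G Q X B
      · by_cases r3 : Cl G Q Y B
        · -- all clear
          have RX : Reducible G base X := by
            refine g1 X hX fun D hD hDX => ?_
            by_cases hDY : D = Y
            · rw [hDY]; exact r1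
            by_cases hDB : D = B
            · rw [hDB]; exact r2
            exact (cD D hD hDX hDY hDB).1
          have RY : Reducible G base Y := by
            refine g1 Y hY fun D hD hDY => ?_
            by_cases hDX : D = X
            · rw [hDX]; exact r1.symm
            by_cases hDB : D = B
            · rw [hDB]; exact r3
            exact (cD D hD hDX hDY hDB).2.1
          have RB : Reducible G base B := by
            refine g1 B hBQ fun D hD hDB => ?_
            by_cases hDX : D = X
            · rw [hDX]; exact r2.symm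
            by_cases hDY : D = Y
            · rw [hDY]; exact r3.symm
            exact (cD D hD hDX hDY hDB).2.2
          have RYB : Reducible G base (Y ∪ B) := by
            have := Reducible.split (split_of_clear_two hQ hY hBQ (Ne.symm hBY) r3) RY
              (by rw [union_empty]; exact RB)
            rwa [union_empty] at this
          have := Reducible.split (split_of_clear hQ hX hY hBQ hXY (Ne.symm hBX) (Ne.symm hBY)
            r1 r2) RX RYB
          rwa [← union_assoc] at this
        · -- `Y B` red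
          have r1' : Cl G Q Y X := r1.symm
          have RX : Reducible G base X := by
            refine g1 X hX fun D hD hDX => ?_
            by_cases hDY : D = Y
            · rw [hDY]; exact r1
            by_cases hDB : D = B
            · rw [hDB]; exact r2
            exact (cD D hD hDX hDY hDB).1
          have RYB := g2 Y hY B hBQ (Ne.symm hBY) r3
          have := Reducible.split (split_of_clear hQ hX hY hBQ hXY (Ne.symm hBX) (Ne.symm hBY)
            r1 r2) RX RYB
          rwa [← union_assoc] at this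
      · -- `X B` red
        have r3 : Cl G Q Y B := by
          by_contra hc
          exact hXY (hr B hBQ X hX Y hY (Ne.symm hBX) (Ne.symm hBY) (fun hh => r2 hh.symm)
            (fun hh => hc hh.symm))
        have RY : Reducible G base Y := by
          refine g1 Y hY fun D hD hDY => ?_
          by_cases hDX : D = X
          · rw [hDX]; exact r1.symm
          by_cases hDB : D = B
          · rw [hDB]; exact r3
          exact (cD D hD hDX hDY hDB).2.1
        have RXB := g2 X hX B hBQ (Ne.symm hBX) r2
        have := Reducible.split (split_of_clear hQ hY hX hBQ (Ne.symm hXY) (Ne.symm hBY)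
          (Ne.symm hBX) r1.symm r3) RY RXB
        rwa [← union_assoc, union_comm Y X] at this
    · -- `X Y` red
      have r2 : Cl G Q X B := by
        by_contra hc
        exact hBY (hr X hX B hBQ Y hY hBX (Ne.symm hXY) hc r1)
      have r3 : Cl G Q Y B := by
        by_contra hc
        exact hBX (hr Y hY B hBQ X hX hBY hXY hc (fun hh => r1 hh.symm))
      have RB : Reducible G base B := by
        refine g1 B hBQ fun D hD hDB => ?_
        by_cases hDX : D = X
        · rw [hDX]; exact r2.symm
        by_cases hDY : D = Y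
        · rw [hDY]; exact r3.symm
        exact (cD D hD hDX hDY hDB).2.2
      have RXY := g2 X hX Y hY hXY r1
      have := Reducible.split (split_of_clear hQ hBQ hX hY hBX hBY hXY r2.symm r3.symm) RB RXY
      rwa [union_comm B] at this
  refine ⟨?_, ?_⟩
  · intro A hA hcl
    rw [hQ'] at hA
    rcases mem_merge.1 hA with rfl | ⟨hAY, hAX, hAQ⟩
    · by_cases r1 : Cl G Q X Y
      · have RX : Reducible G base X := by
          refine g1 X hX fun D hD hDX => ?_
          by_cases hDY : D = Y
          · rw [hDY]; exact r1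
          obtain ⟨hD', hDZ⟩ := hmem D hD hDX hDY
          exact clear_fineX hQ hX hY hXY (hcl D hD' hDZ)
        have RY : Reducible G base Y := by
          refine g1 Y hY fun D hD hDY => ?_
          by_cases hDX : D = X
          · rw [hDX]; exact r1.symm
          obtain ⟨hD', hDZ⟩ := hmem D hD hDX hDY
          exact clear_fineY hQ hX hY hXY (hcl D hD' hDZ)
        have := Reducible.split (split_of_clear_two hQ hX hY hXY r1) RX
          (by rw [union_empty]; exact RY)
        rwa [union_empty] at this
      · exact g2 X hX Y hY hXY r1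
    · refine g1 A hAQ fun B hB hBA => ?_
      by_cases hBX : B = X
      · rw [hBX]
        have := hcl (X ∪ Y) hZ (hmem A hAQ hAX hAY).2.symm
        exact (clear_fineX hQ hX hY hXY this.symm).symm
      by_cases hBY : B = Y
      · rw [hBY]
        have := hcl (X ∪ Y) hZ (hmem A hAQ hAX hAY).2.symm
        exact (clear_fineY hQ hX hY hXY this.symm).symm
      exact clear_fine hQ hX hY hXY (hcl B (hmem B hB hBX hBY).1 hBA)
  · intro A hA B hB hAB hred
    by_cases hAZ : A = X ∪ Y
    · rw [hAZ] at hAB hred ⊢
      exact keyZ B hB (Ne.symm hAB) hred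
    by_cases hBZ : B = X ∪ Y
    · rw [hBZ] at hAB hred ⊢
      rw [union_comm]
      exact keyZ A hA hAB (fun hh => hred hh.symm)
    rw [hQ'] at hA hB
    rcases mem_merge.1 hA with h | ⟨hAY, hAX, hAQ⟩
    · exact absurd h hAZ
    rcases mem_merge.1 hB with h | ⟨hBY, hBX, hBQ⟩
    · exact absurd h hBZ
    by_cases hc : Cl G Q A B
    · exfalso
      obtain ⟨k1, k2⟩ := new_red hQ hX hY hXY hAQ hBQ hAX hAY hBX hBY hAB hc hred
      obtain ⟨m1, m2⟩ := hmem A hAQ hAX hAY
      obtain ⟨m3, m4⟩ := hmem B hBQ hBX hBY
      exact hAB (hr' _ hZ _ m1 _ m3 m2 m4 k1 k2)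
    · exact g2 A hAQ B hBQ hAB hc

end

/-- **3-graphs of twin-width at most one are built from single vertices by uniform splits.** -/
theorem reducible_of_tww [Fintype V] (h : TwwLe 3 (fun e => e ∈ G) 1) :
    Reducible G (fun W => W.card ≤ 1) (univ : Finset V) := by
  classical
  rcases isEmpty_or_nonempty V with hV | hV
  · refine Reducible.base ?_
    rw [card_univ, Fintype.card_eq_zero]
    omega
  obtain ⟨P, h0, hs, hr⟩ := h
  have hpart := seq_part h0 hs
  have hn : 0 < Fintype.card V := Fintype.card_pos
  have hrd : ∀ i, i < Fintype.card V → RDo G (P i) := fun i hi => rdo_of (by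
    intro A hA
    exact hr i hi A hA)
  have main : ∀ i, i < Fintype.card V → Good G (fun W => W.card ≤ 1) (P i) := by
    intro i
    induction i with
    | zero =>
      intro _
      rw [h0]
      constructor
      · intro A hA _
        obtain ⟨v, -, rfl⟩ := mem_image.1 hA
        exact Reducible.base (by simp)
      · intro A hA B hB hAB hred
        exfalso
        apply hred
        intro e f _ _ _ _ hp
        have hef : e = f := by
          ext v
          have h2 := hp {v} (mem_image_of_mem _ (mem_univ v))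
          constructor
          · intro hv
            by_contra hv'
            rw [inter_singleton_of_mem hv, inter_singleton_of_notMem hv'] at h2
            simp at h2
          · intro hv
            by_contra hv'
            rw [inter_singleton_of_mem hv, inter_singleton_of_notMem hv'] at h2
            simp at h2
        rw [hef]
    | succ i ih =>
      intro hi
      obtain ⟨X, hX, Y, hY, hXY, he⟩ := hs i hi
      have hr1 := hrd (i + 1) hi
      rw [he] at hr1 ⊢
      exact good_step (hpart i (by omega)).1 hX hY hXY (hrd i (by omega)) hr1 (ih (by omega))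
  obtain ⟨g1, -⟩ := main (Fintype.card V - 1) (by omega)
  obtain ⟨hp, hc⟩ := hpart (Fintype.card V - 1) (by omega)
  have hc1 : (P (Fintype.card V - 1)).card = 1 := by omega
  obtain ⟨A, hA⟩ := card_eq_one.1 hc1
  have hAu : A = univ := by
    ext v
    simp only [mem_univ, iff_true]
    obtain ⟨B, hB, hv⟩ := hp.cover v
    rw [hA, mem_singleton] at hB
    rwa [← hB]
  rw [← hAu]
  refine g1 A (by rw [hA]; simp) fun B hB hBA => ?_
  rw [hA, mem_singleton] at hB
  exact absurd hB hBA

end Pool.Agent.T2H11.KS
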